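import Pool.Agent.H16.HH.Rep

/-!
# Hyperelliptic Hodge integrals: the degree and the positivity of the binomial coefficients
-/

set_option autoImplicit false

open Finset

namespace Pool.Agent.H16.HH

/-- the multi-indices `a ≤ i` with `a_1 + ⋯ + a_N = s` -/
def below {N : ℕ} (i : Fin N → ℕ) (s : ℕ) : Finset (Fin N → ℕ) :=
  (Fintype.piFinset fun j => range (i j + 1)).filter fun a => ∑ j, a j = s

/-- The integrals `D i g = ∫ ψ^(2g-1-|i|) λ_(i_1) ⋯ λ_(i_N)` over the moduli space with `2g + 2`
markings of non-trivial isotropy, for `g ≥ 1`, and `d i g = ∫ ψ^(2g-|i|) λ_(i_1) ⋯ λ_(i_N)` over the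
moduli space with one further marking of trivial isotropy, which carries `ψ`, for `g ≥ 0`. They are
`0` if the exponent of `ψ` is negative. The fields are known:

* `D_dim`, `d_dim`: the exponent is negative;
* `d_string`: without `ψ` the integrand of `d` is a pull-back by the map which forgets the marking;
* `D_psi`, `D_lambda`, `d_point`: the integrals of `ψ` and `λ_1` for `g = 1`, and `g = 0`;
* `D_nonneg`: the integrals without `ψ` are non-negative, since the Hodge bundle is nef;
* `trr`, `trr'`: the topological recursion relation in genus `0` for a marking and two markings of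
  non-trivial isotropy, the splitting of the Hodge bundle on the boundary divisors and the string
  equation. The sum is over the divisors whose node has non-trivial isotropy: the component of the
  two markings has `2t + 4` markings and nodes of non-trivial isotropy, so its genus is `t + 1` -/
structure HodgeIntegrals (N : ℕ) where
  D : (Fin N → ℕ) → ℕ → ℚ
  d : (Fin N → ℕ) → ℕ → ℚ
  D_dim : ∀ i g, 1 ≤ g → 2 * g ≤ ∑ j, i j → D i g = 0
  d_dim : ∀ i g, 2 * g < ∑ j, i j → d i g = 0
  d_string : ∀ i g, 1 ≤ g → ∑ j, i j = 2 * g → d i g = 0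
  D_psi : D 0 1 = 1 / 2
  D_lambda : ∀ j, D (Pi.single j 1) 1 = 1 / 4
  d_point : d 0 0 = 1 / 2
  D_nonneg : ∀ i g, ∑ j, i j + 1 = 2 * g → 0 ≤ D i g
  trr : ∀ i g, 1 ≤ g → ∑ j, i j ≤ 2 * g → D i (g + 1) = D i g +
    ∑ t ∈ range g, ((2 * g + 1).choose (2 * t + 1) : ℚ) *
      ∑ a ∈ below i (2 * t + 1), 2 * D a (t + 1) * D (i - a) (g - t)
  trr' : ∀ i g, ∑ j, i j ≤ 2 * g + 1 → d i (g + 1) = d i g +
    ∑ t ∈ range (g + 1), ((2 * g + 2).choose (2 * t + 1) : ℚ) *
      ∑ a ∈ below i (2 * t + 1), 2 * D a (t + 1) * d (i - a) (g - t)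

section lemmas

variable {N : ℕ}

theorem mem_below {i a : Fin N → ℕ} {s : ℕ} : a ∈ below i s ↔ a ≤ i ∧ ∑ j, a j = s := by
  unfold below
  rw [Finset.mem_filter, Fintype.mem_piFinset]
  constructor
  · rintro ⟨h1, h2⟩
    exact ⟨fun j => Nat.lt_succ_iff.1 (Finset.mem_range.1 (h1 j)), h2⟩
  · rintro ⟨h1, h2⟩
    exact ⟨fun j => Finset.mem_range.2 (Nat.lt_succ_iff.2 (h1 j)), h2⟩

theorem sum_sub {i a : Fin N → ℕ} (h : a ≤ i) : ∑ j, a j + ∑ j, (i - a) j = ∑ j, i j := by
  rw [← Finset.sum_add_distrib]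
  refine Finset.sum_congr rfl fun j _ => ?_
  have h1 : a j ≤ i j := h j
  simp only [Pi.sub_apply]
  omega

theorem below_empty {i : Fin N → ℕ} {s : ℕ} (h : ∑ j, i j < s) : below i s = ∅ := by
  rw [Finset.eq_empty_iff_forall_notMem]
  intro a ha
  rw [mem_below] at ha
  have := sum_sub ha.1
  omega

theorem sum_eq_zero {i : Fin N → ℕ} (h : ∑ j, i j = 0) : i = 0 := by
  funext j
  exact (Finset.sum_eq_zero_iff.1 h) j (Finset.mem_univ j)

theorem below_self {i : Fin N → ℕ} : below i (∑ j, i j) = {i} := by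
  ext a
  rw [mem_below, Finset.mem_singleton]
  constructor
  · rintro ⟨h1, h2⟩
    have h3 := sum_sub h1
    have h4 : i - a = 0 := sum_eq_zero (by omega)
    funext j
    have h5 : i j - a j = 0 := congrFun h4 j
    have h6 : a j ≤ i j := h1 j
    omega
  · rintro rfl
    exact ⟨le_refl _, rfl⟩

theorem below_one (i : Fin N → ℕ) :
    below i 1 = (univ.filter fun j => 1 ≤ i j).image fun j => Pi.single j 1 := by
  ext a
  rw [mem_below, Finset.mem_image]
  constructor
  · rintro ⟨h1, h2⟩
    obtain ⟨j, hj⟩ : ∃ j, a j ≠ 0 := by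
      by_contra h
      push Not at h
      rw [Finset.sum_eq_zero fun j _ => h j] at h2
      exact absurd h2 (by norm_num)
    have h3 : a j + ∑ l ∈ univ.erase j, a l = 1 := by
      rw [Finset.add_sum_erase _ _ (Finset.mem_univ j), h2]
    have h4 : a j = 1 := by omega
    have h5 : ∑ l ∈ univ.erase j, a l = 0 := by omega
    have h6 : a j ≤ i j := h1 j
    refine ⟨j, Finset.mem_filter.2 ⟨Finset.mem_univ j, by omega⟩, ?_⟩
    funext l
    by_cases hl : l = j
    · subst hl
      rw [Pi.single_eq_same, h4]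
    · rw [Pi.single_eq_of_ne hl]
      exact ((Finset.sum_eq_zero_iff.1 h5) l (Finset.mem_erase.2 ⟨hl, Finset.mem_univ l⟩)).symm
  · rintro ⟨j, hj, rfl⟩
    refine ⟨fun l => ?_, ?_⟩
    · by_cases hl : l = j
      · subst hl
        rw [Pi.single_eq_same]
        exact (Finset.mem_filter.1 hj).2
      · rw [Pi.single_eq_of_ne hl]
        exact Nat.zero_le _
    · rw [Finset.sum_pi_single']
      simp

theorem below_zero (s : ℕ) (hs : 0 < s) : below (0 : Fin N → ℕ) s = ∅ :=
  below_empty (by simpa using hs)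

variable (H : HodgeIntegrals N)

/-- the values of the first polynomial -/
def pv (i : Fin N → ℕ) (g : ℕ) : ℚ :=
  if g = 0 then (if i = 0 then 1 else 0) else 2 ^ (∑ j, i j + 1) * H.D i g

/-- the values of the second polynomial -/
def qv (i : Fin N → ℕ) (g : ℕ) : ℚ := 2 ^ (∑ j, i j + 1) * H.d i g

theorem pv_dim (i : Fin N → ℕ) (g : ℕ) (h : 2 * g ≤ ∑ j, i j) (h0 : g = 0 → i ≠ 0) :
    pv H i g = 0 := by
  unfold pv
  split_ifs with h1 h2
  · exact absurd h2 (h0 h1)
  · rfl
  · rw [H.D_dim i g (by omega) h, mul_zero]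

theorem two_mul_pow {i a : Fin N → ℕ} (h : a ≤ i) (x y : ℚ) :
    (2 : ℚ) ^ (∑ j, i j + 1) * (2 * x * y) =
      2 ^ (∑ j, a j + 1) * x * (2 ^ (∑ j, (i - a) j + 1) * y) := by
  rw [← sum_sub h]
  ring

theorem rec_p (i : Fin N → ℕ) (g : ℕ) : pv H i (g + 1) = pv H i g +
    ∑ t ∈ range (g + 1), ((2 * g + 1).choose (2 * t + 1) : ℚ) *
      ∑ a ∈ below i (2 * t + 1), pv H a (t + 1) * pv H (i - a) (g - t) := by
  rcases le_or_gt (∑ j, i j) (2 * g) with h | h
  · rcases Nat.eq_zero_or_pos g with rfl | hg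
    · have h0 : i = 0 := sum_eq_zero (by omega)
      subst h0
      have h1 := H.D_psi
      rw [Finset.sum_range_succ, Finset.sum_range_zero, below_zero _ (by norm_num)]
      simp [pv, h1]
    · have h1 := H.trr i g hg h
      rw [Finset.sum_range_succ, below_empty (by omega : ∑ j, i j < 2 * g + 1),
        Finset.sum_empty, mul_zero, add_zero]
      have h2 : ∀ (b : Fin N → ℕ) (n : ℕ), 1 ≤ n → pv H b n = 2 ^ (∑ j, b j + 1) * H.D b n := by
        intro b n hn
        unfold pv
        rw [if_neg (by omega)]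
      rw [h2 i (g + 1) (by omega), h2 i g hg, h1, mul_add, Finset.mul_sum]
      congr 1
      refine Finset.sum_congr rfl fun t ht => ?_
      rw [Finset.mem_range] at ht
      rw [mul_left_comm, Finset.mul_sum]
      congr 1
      refine Finset.sum_congr rfl fun a ha => ?_
      rw [h2 a (t + 1) (by omega), h2 (i - a) (g - t) (by omega)]
      exact two_mul_pow (mem_below.1 ha).1 _ _
  · have hi : i ≠ 0 := by
      rintro rfl
      simp at h
    have h1 : pv H i g = 0 := pv_dim H i g (by omega) fun _ => hi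
    have h2 : ∀ t ∈ range g, ((2 * g + 1).choose (2 * t + 1) : ℚ) *
        ∑ a ∈ below i (2 * t + 1), pv H a (t + 1) * pv H (i - a) (g - t) = 0 := by
      intro t ht
      rw [Finset.mem_range] at ht
      rw [Finset.sum_eq_zero, mul_zero]
      intro a ha
      obtain ⟨h3, h4⟩ := mem_below.1 ha
      have h5 := sum_sub h3
      rw [pv_dim H (i - a) (g - t) (by omega) (fun h => by omega), mul_zero]
    rw [Finset.sum_range_succ, Finset.sum_eq_zero h2, h1, zero_add, zero_add, Nat.choose_self,
      Nat.cast_one, one_mul, Nat.sub_self]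
    rcases Nat.eq_or_lt_of_le (by omega : 2 * g + 1 ≤ ∑ j, i j) with h6 | h6
    · rw [h6, below_self, Finset.sum_singleton]
      have h7 : i - i = 0 := by
        funext j
        simp
      rw [h7]
      unfold pv
      simp
    · rw [pv_dim H i (g + 1) (by omega) (fun h => by omega), eq_comm]
      refine Finset.sum_eq_zero fun a ha => ?_
      obtain ⟨h3, h4⟩ := mem_below.1 ha
      have h5 := sum_sub h3
      have h7 : i - a ≠ 0 := by
        intro h8
        rw [h8] at h5
        simp only [Pi.zero_apply, Finset.sum_const_zero] at h5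
        omega
      rw [pv_dim H (i - a) 0 (by omega) (fun _ => h7), mul_zero]

theorem rec_q (i : Fin N → ℕ) (g : ℕ) : qv H i (g + 1) = qv H i g +
    ∑ t ∈ range (g + 1), ((2 * g + 2).choose (2 * t + 1) : ℚ) *
      ∑ a ∈ below i (2 * t + 1), pv H a (t + 1) * qv H (i - a) (g - t) := by
  have h2 : ∀ (b : Fin N → ℕ) (n : ℕ), pv H b (n + 1) = 2 ^ (∑ j, b j + 1) * H.D b (n + 1) := by
    intro b n
    unfold pv
    rw [if_neg (by omega)]
  rcases le_or_gt (∑ j, i j) (2 * g + 1) with h | h
  · have h1 := H.trr' i g h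
    unfold qv
    rw [h1, mul_add, Finset.mul_sum]
    congr 1
    refine Finset.sum_congr rfl fun t ht => ?_
    rw [mul_left_comm, Finset.mul_sum]
    congr 1
    refine Finset.sum_congr rfl fun a ha => ?_
    rw [h2 a t]
    exact two_mul_pow (mem_below.1 ha).1 _ _
  · have h3 : qv H i (g + 1) = 0 := by
      unfold qv
      rcases Nat.eq_or_lt_of_le (by omega : 2 * (g + 1) ≤ ∑ j, i j) with h4 | h4
      · rw [H.d_string i (g + 1) (by omega) h4.symm, mul_zero]
      · rw [H.d_dim i (g + 1) h4, mul_zero]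
    have h4 : qv H i g = 0 := by
      unfold qv
      rw [H.d_dim i g (by omega), mul_zero]
    rw [h3, h4, zero_add, eq_comm]
    refine Finset.sum_eq_zero fun t ht => ?_
    rw [Finset.mem_range] at ht
    rw [Finset.sum_eq_zero, mul_zero]
    intro a ha
    obtain ⟨h5, h6⟩ := mem_below.1 ha
    have h7 := sum_sub h5
    unfold qv
    rw [H.d_dim (i - a) (g - t) (by omega), mul_zero, mul_zero]

/-- the top coefficient -/
def top (i : Fin N → ℕ) : ℚ :=
  ((2 * ∑ j, i j).factorial : ℚ) / ∏ j, ((i j).factorial : ℚ)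

theorem top_rec (i : Fin N → ℕ) (n : ℕ) (h : ∑ j, i j = n + 1) :
    ∑ j ∈ univ.filter (fun j => 1 ≤ i j),
      2 * ((((2 * n : ℕ) : ℚ)) + 1) * top (i - Pi.single j 1) = top i := by
  have h1 : ∀ j ∈ univ.filter (fun j => 1 ≤ i j),
      2 * ((((2 * n : ℕ) : ℚ)) + 1) * top (i - Pi.single j 1) =
      2 * ((((2 * n : ℕ) : ℚ)) + 1) * ((2 * n).factorial : ℚ) / (∏ j, ((i j).factorial : ℚ)) *
        (i j : ℚ) := by
    intro j hj
    have hj1 : 1 ≤ i j := (Finset.mem_filter.1 hj).2
    have hle : (Pi.single j 1 : Fin N → ℕ) ≤ i := by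
      intro l
      by_cases hl : l = j
      · subst hl
        rw [Pi.single_eq_same]
        exact hj1
      · rw [Pi.single_eq_of_ne hl]
        exact Nat.zero_le _
    have h2 : ∑ l, (i - (Pi.single j 1 : Fin N → ℕ)) l = n := by
      have h3 := sum_sub hle
      rw [Finset.sum_pi_single'] at h3
      simp only [Finset.mem_univ, if_true] at h3
      omega
    have h4 : (∏ l, ((i l).factorial : ℚ)) =
        (i j : ℚ) * ∏ l, (((i - (Pi.single j 1 : Fin N → ℕ)) l).factorial : ℚ) := by
      rw [← Finset.mul_prod_erase _ _ (Finset.mem_univ j),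
        ← Finset.mul_prod_erase _ (fun l => (((i - (Pi.single j 1 : Fin N → ℕ)) l).factorial : ℚ))
          (Finset.mem_univ j)]
      have h5 : ∀ l ∈ univ.erase j, ((i l).factorial : ℚ) =
          (((i - (Pi.single j 1 : Fin N → ℕ)) l).factorial : ℚ) := by
        intro l hl
        rw [Pi.sub_apply, Pi.single_eq_of_ne (Finset.ne_of_mem_erase hl), Nat.sub_zero]
      rw [Finset.prod_congr rfl h5, ← mul_assoc]
      congr 1
      rw [Pi.sub_apply, Pi.single_eq_same]
      obtain ⟨m, hm⟩ : ∃ m, i j = m + 1 := ⟨i j - 1, by omega⟩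
      rw [hm, Nat.add_sub_cancel, Nat.factorial_succ]
      push_cast
      ring
    have h5 : (∏ l, (((i - (Pi.single j 1 : Fin N → ℕ)) l).factorial : ℚ)) ≠ 0 :=
      Finset.prod_ne_zero_iff.2 fun l _ => by exact_mod_cast Nat.factorial_ne_zero _
    have h6 : (i j : ℚ) ≠ 0 := by exact_mod_cast (by omega : i j ≠ 0)
    unfold top
    rw [h2, h4]
    field_simp
  rw [Finset.sum_congr rfl h1, ← Finset.mul_sum]
  have h7 : ∑ j ∈ univ.filter (fun j => 1 ≤ i j), (i j : ℚ) = (n : ℚ) + 1 := by
    have h8 : ∑ j ∈ univ.filter (fun j => 1 ≤ i j), (i j : ℚ) = ∑ j, (i j : ℚ) := by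
      refine Finset.sum_subset (Finset.filter_subset _ _) fun j _ hj => ?_
      rw [Finset.mem_filter] at hj
      have : i j = 0 := by
        by_contra h9
        exact hj ⟨Finset.mem_univ j, by omega⟩
      rw [this, Nat.cast_zero]
    rw [h8]
    exact_mod_cast h
  rw [h7]
  unfold top
  rw [h, show 2 * (n + 1) = 2 * n + 1 + 1 by ring, Nat.factorial_succ, Nat.factorial_succ]
  push_cast
  ring

theorem pv_single (j : Fin N) : pv H (Pi.single j 1) 1 = 1 := by
  unfold pv
  rw [if_neg (by norm_num), H.D_lambda j, Finset.sum_pi_single']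
  simp
  norm_num

theorem pv_nonneg (a : Fin N → ℕ) (t : ℕ) (h : ∑ j, a j = 2 * t + 1) : 0 ≤ pv H a (t + 1) := by
  unfold pv
  rw [if_neg (by omega)]
  exact mul_nonneg (by positivity) (H.D_nonneg a (t + 1) (by omega))

theorem sum_ext (i : Fin N → ℕ) (n g : ℕ) (h : ∑ j, i j = n) (C : ℕ → ℚ) (hC : ∀ t, g < t → C t = 0)
    (E : (Fin N → ℕ) → ℕ → ℚ) :
    ∑ t ∈ range (g + 1), C t * ∑ a ∈ below i (2 * t + 1), E a t =
      ∑ t ∈ range n, ∑ a ∈ below i (2 * t + 1), C t * E a t := by
  have h1 : ∀ t, C t * ∑ a ∈ below i (2 * t + 1), E a t =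
      ∑ a ∈ below i (2 * t + 1), C t * E a t := fun t => Finset.mul_sum _ _ _
  simp_rw [h1]
  have h2 : ∑ t ∈ range (g + 1), ∑ a ∈ below i (2 * t + 1), C t * E a t =
      ∑ t ∈ range (g + 1 + n), ∑ a ∈ below i (2 * t + 1), C t * E a t := by
    refine Finset.sum_subset (Finset.range_mono (by omega)) fun t _ ht => ?_
    rw [Finset.mem_range] at ht
    exact Finset.sum_eq_zero fun a _ => by rw [hC t (by omega), zero_mul]
  have h3 : ∑ t ∈ range n, ∑ a ∈ below i (2 * t + 1), C t * E a t =
      ∑ t ∈ range (g + 1 + n), ∑ a ∈ below i (2 * t + 1), C t * E a t := by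
    refine Finset.sum_subset (Finset.range_mono (by omega)) fun t _ ht => ?_
    rw [Finset.mem_range] at ht
    rw [below_empty (by omega), Finset.sum_empty]
  rw [h2, h3]

/-- the induction step, for both polynomials -/
theorem rep_step (i : Fin N → ℕ) (n : ℕ) (h : ∑ j, i j = n + 1) (f : (Fin N → ℕ) → ℕ → ℚ)
    (C : ℕ → ℕ → ℚ) (y : ℚ) (hy : 0 < y) (hC0 : ∀ g : ℕ, C g 0 = 2 * (g : ℚ) + y)
    (hC : ∀ g t, g < t → C g t = 0)
    (hNN : ∀ (m : ℕ) (F : ℕ → ℚ) (t : ℕ), NN 0 m F → NN 0 (m + 2 * t + 1)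
      fun g => C g t * F (g - t))
    (h0 : 0 ≤ f i 0)
    (hrec : ∀ g, f i (g + 1) = f i g + ∑ t ∈ range (g + 1), C g t *
      ∑ a ∈ below i (2 * t + 1), pv H a (t + 1) * f (i - a) (g - t))
    (ih : ∀ b : Fin N → ℕ, ∑ j, b j < n + 1 →
      Rep (∑ j, b j) (2 * ∑ j, b j) (top b) (f b)) :
    Rep (n + 1) (2 * (n + 1)) (top i) (f i) := by
  have hF : ∀ g, f i (g + 1) = f i g + (∑ j ∈ univ.filter (fun j => 1 ≤ i j),
      (2 * (g : ℚ) + y) * f (i - Pi.single j 1) g +
      ∑ t ∈ range n, ∑ a ∈ below i (2 * (t + 1) + 1), pv H a (t + 1 + 1) *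
        (C g (t + 1) * f (i - a) (g - (t + 1)))) := by
    intro g
    rw [hrec g, sum_ext i (n + 1) g h (C g) (hC g)
      (fun a t => pv H a (t + 1) * f (i - a) (g - t)), Finset.sum_range_succ', add_comm (∑ _ ∈ _, _)]
    congr 1
    congr 1
    · rw [show 2 * 0 + 1 = 1 by norm_num, below_one, Finset.sum_image]
      · refine Finset.sum_congr rfl fun j _ => ?_
        rw [pv_single, hC0, Nat.sub_zero, one_mul]
      · intro a _ b _ hab
        by_contra hne
        have h1 : (Pi.single a 1 : Fin N → ℕ) a = (Pi.single b 1 : Fin N → ℕ) a :=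
          congrFun hab a
        rw [Pi.single_eq_same, Pi.single_eq_of_ne hne] at h1
        exact absurd h1 (by norm_num)
    · refine Finset.sum_congr rfl fun t _ => Finset.sum_congr rfl fun a _ => ?_
      ring
  have hne : (univ.filter (fun j => 1 ≤ i j)).Nonempty := by
    by_contra hcon
    rw [Finset.not_nonempty_iff_eq_empty, Finset.filter_eq_empty_iff] at hcon
    have h1 : ∑ j, i j = 0 := Finset.sum_eq_zero fun j hj => by
      have := hcon hj
      omega
    omega
  have hmain : Rep n (2 * n + 1) (top i) fun g => ∑ j ∈ univ.filter (fun j => 1 ≤ i j),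
      (2 * (g : ℚ) + y) * f (i - Pi.single j 1) g := by
    rw [← top_rec i n h]
    refine Rep.sum _ hne _ _ fun j hj => ?_
    have hj1 : 1 ≤ i j := (Finset.mem_filter.1 hj).2
    have hle : (Pi.single j 1 : Fin N → ℕ) ≤ i := by
      intro l
      by_cases hl : l = j
      · subst hl
        rw [Pi.single_eq_same]
        exact hj1
      · rw [Pi.single_eq_of_ne hl]
        exact Nat.zero_le _
    have h2 : ∑ l, (i - (Pi.single j 1 : Fin N → ℕ)) l = n := by
      have h3 := sum_sub hle
      rw [Finset.sum_pi_single'] at h3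
      simp only [Finset.mem_univ, if_true] at h3
      omega
    have h3 := ih (i - Pi.single j 1) (by omega)
    rw [h2] at h3
    exact h3.mul (by omega) hy
  have hrest : NN 0 (2 * n) fun g => ∑ t ∈ range n, ∑ a ∈ below i (2 * (t + 1) + 1),
      pv H a (t + 1 + 1) * (C g (t + 1) * f (i - a) (g - (t + 1))) := by
    refine NN.sum _ _ fun t _ => NN.sum _ _ fun a ha => ?_
    obtain ⟨h1, h2⟩ := mem_below.1 ha
    have h3 := sum_sub h1
    have h4 := (ih (i - a) (by omega)).nn
    have h5 := hNN _ _ (t + 1) h4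
    exact (h5.smul (pv_nonneg H a (t + 1) h2)).mono (le_refl _) (by omega)
  exact (hmain.add_nn hrest (by omega)).int h0 hF

theorem rep_const (f : ℕ → ℚ) (h : ∀ g, f g = 1) :
    Rep (∑ j, (0 : Fin N → ℕ) j) (2 * ∑ j, (0 : Fin N → ℕ) j) (top (0 : Fin N → ℕ)) f := by
  refine ⟨fun k => if k = 0 then 1 else 0, fun k => ?_, fun k _ hk => ?_, fun k hk => ?_, ?_,
    fun g => ?_⟩
  · beta_reduce
    split_ifs <;> norm_num
  · simp only [Pi.zero_apply, Finset.sum_const_zero, mul_zero] at hk
    simp [Nat.le_zero.1 hk]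
  · simp only [Pi.zero_apply, Finset.sum_const_zero, mul_zero] at hk
    simp [hk.ne']
  · simp [top]
  · rw [h g]
    unfold bexp
    simp

theorem rep_p (n : ℕ) : ∀ i : Fin N → ℕ, ∑ j, i j = n →
    Rep (∑ j, i j) (2 * ∑ j, i j) (top i) (pv H i) := by
  induction n using Nat.strong_induction_on with
  | _ n ih =>
    intro i hi
    cases n with
    | zero =>
      have h0 := sum_eq_zero hi
      subst h0
      refine rep_const _ fun g => ?_
      induction g with
      | zero => simp [pv]
      | succ g ihg =>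
        rw [rec_p, ihg, Finset.sum_eq_zero, add_zero]
        intro t _
        rw [below_zero _ (by omega), Finset.sum_empty, mul_zero]
    | succ n =>
      rw [hi]
      refine rep_step H i n hi (pv H) (fun g t => ((2 * g + 1).choose (2 * t + 1) : ℚ)) 1
        one_pos (fun g => by simp) (fun g t h => by
          rw [Nat.choose_eq_zero_of_lt (by omega), Nat.cast_zero])
        (fun m F t h => h.odd t) ?_ (rec_p H i) fun b hb => ih _ hb b rfl
      have : i ≠ 0 := by
        rintro rfl
        simp at hi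
      simp [pv, this]

theorem rep_q (n : ℕ) : ∀ i : Fin N → ℕ, ∑ j, i j = n →
    Rep (∑ j, i j) (2 * ∑ j, i j) (top i) (qv H i) := by
  induction n using Nat.strong_induction_on with
  | _ n ih =>
    intro i hi
    cases n with
    | zero =>
      have h0 := sum_eq_zero hi
      subst h0
      refine rep_const _ fun g => ?_
      induction g with
      | zero => simp [qv, H.d_point]
      | succ g ihg =>
        rw [rec_q, ihg, Finset.sum_eq_zero, add_zero]
        intro t _
        rw [below_zero _ (by omega), Finset.sum_empty, mul_zero]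
    | succ n =>
      rw [hi]
      refine rep_step H i n hi (qv H) (fun g t => ((2 * g + 2).choose (2 * t + 1) : ℚ)) 2
        two_pos (fun g => by simp) (fun g t h => by
          rw [Nat.choose_eq_zero_of_lt (by omega), Nat.cast_zero])
        (fun m F t h => h.even t) ?_ (rec_q H i) fun b hb => ih _ hb b rfl
      unfold qv
      rw [H.d_dim i 0 (by omega), mul_zero]

end lemmas

end Pool.Agent.H16.HH
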