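import Pool.Agent.H16.HH.Deg

/-!
# Hyperelliptic Hodge integrals: the polynomials
-/

set_option autoImplicit false

open Finset

namespace Pool.Agent.H16.HH

/-- the polynomial with the binomial coefficients `c` up to `n` -/
noncomputable def poly (c : ℕ → ℚ) (n : ℕ) : Polynomial ℚ :=
  ∑ k ∈ range (n + 1), Polynomial.C (c k / (k.factorial : ℚ)) * descPochhammer ℚ k

theorem poly_eval (c : ℕ → ℚ) (n g : ℕ) (hc : ∀ k, n < k → c k = 0) :
    (poly c n).eval (g : ℚ) = bexp c g := by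
  unfold poly
  rw [Polynomial.eval_finset_sum, ← bexp_supp c g n hc]
  refine Finset.sum_congr rfl fun k _ => ?_
  rw [Polynomial.eval_mul, Polynomial.eval_C, descPochhammer_eval_eq_descFactorial,
    Nat.descFactorial_eq_factorial_mul_choose]
  have : (k.factorial : ℚ) ≠ 0 := by exact_mod_cast Nat.factorial_ne_zero k
  push_cast
  field_simp

theorem poly_lt (c : ℕ → ℚ) (n : ℕ) :
    (∑ k ∈ range n, Polynomial.C (c k / (k.factorial : ℚ)) * descPochhammer ℚ k).degree <
      (n : WithBot ℕ) := by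
  refine lt_of_le_of_lt (Polynomial.degree_sum_le _ _) ?_
  rw [Finset.sup_lt_iff (by exact WithBot.bot_lt_coe n)]
  intro k hk
  rw [Finset.mem_range] at hk
  refine lt_of_le_of_lt (Polynomial.degree_mul_le _ _) ?_
  have h1 : (descPochhammer ℚ k).degree = (k : WithBot ℕ) := by
    rw [Polynomial.degree_eq_natDegree (monic_descPochhammer ℚ k).ne_zero,
      descPochhammer_natDegree]
  have h2 : (Polynomial.C (c k / (k.factorial : ℚ))).degree ≤ 0 := Polynomial.degree_C_le
  calc (Polynomial.C (c k / (k.factorial : ℚ))).degree + (descPochhammer ℚ k).degree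
      ≤ 0 + (k : WithBot ℕ) := add_le_add h2 h1.le
    _ = (k : WithBot ℕ) := zero_add _
    _ < (n : WithBot ℕ) := by exact_mod_cast hk

theorem poly_degree (c : ℕ → ℚ) (n : ℕ) (hn : c n ≠ 0) :
    (poly c n).natDegree = n ∧ (poly c n).leadingCoeff = c n / (n.factorial : ℚ) := by
  have hx : c n / (n.factorial : ℚ) ≠ 0 :=
    div_ne_zero hn (by exact_mod_cast Nat.factorial_ne_zero n)
  have h1 : (Polynomial.C (c n / (n.factorial : ℚ)) * descPochhammer ℚ n).degree =
      (n : WithBot ℕ) := by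
    rw [Polynomial.degree_C_mul hx,
      Polynomial.degree_eq_natDegree (monic_descPochhammer ℚ n).ne_zero, descPochhammer_natDegree]
  have h2 := poly_lt c n
  rw [← h1] at h2
  have h3 : (poly c n).degree = (n : WithBot ℕ) := by
    unfold poly
    rw [Finset.sum_range_succ, Polynomial.degree_add_eq_right_of_degree_lt h2, h1]
  refine ⟨Polynomial.natDegree_eq_of_degree_eq_some h3, ?_⟩
  unfold poly
  rw [Finset.sum_range_succ, Polynomial.leadingCoeff_add_of_degree_lt h2,
    Polynomial.leadingCoeff_mul, Polynomial.leadingCoeff_C, (monic_descPochhammer ℚ n).leadingCoeff,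
    mul_one]

theorem bexp_unique (c c' : ℕ → ℚ) (m n : ℕ) (hc : ∀ k, m < k → c k = 0)
    (hc' : ∀ k, n < k → c' k = 0) (h : ∀ g : ℕ, 1 ≤ g → bexp c g = bexp c' g) : c = c' := by
  have hp : poly c m = poly c' n := by
    refine Polynomial.eq_of_infinite_eval_eq _ _ ?_
    refine Set.Infinite.mono (s := Set.range fun g : ℕ => ((g + 1 : ℕ) : ℚ)) ?_
      (Set.infinite_range_of_injective fun a b hab => ?_)
    · rintro x ⟨g, rfl⟩
      rw [Set.mem_setOf_eq, poly_eval c m (g + 1) hc, poly_eval c' n (g + 1) hc']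
      exact h (g + 1) (by omega)
    · have : (a + 1 : ℕ) = b + 1 := by exact_mod_cast hab
      omega
  have h0 : ∀ g : ℕ, bexp c g = bexp c' g := by
    intro g
    rw [← poly_eval c m g hc, ← poly_eval c' n g hc', hp]
  funext k
  induction k using Nat.strong_induction_on with
  | _ k ih =>
    have h1 := h0 k
    unfold bexp at h1
    rw [Finset.sum_range_succ, Finset.sum_range_succ _ k, Nat.choose_self] at h1
    have h2 : ∑ x ∈ range k, c x * (k.choose x : ℚ) = ∑ x ∈ range k, c' x * (k.choose x : ℚ) :=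
      Finset.sum_congr rfl fun x hx => by rw [ih x (Finset.mem_range.1 hx)]
    rw [h2] at h1
    simpa using h1

theorem Rep.concl {m n : ℕ} {x : ℚ} {f : ℕ → ℚ} (h : Rep m n x f) (hx : x ≠ 0) :
    (∃ P : Polynomial ℚ, (∀ g : ℕ, P.eval (g : ℚ) = f g) ∧ P.natDegree = n ∧
      P.leadingCoeff = x / (n.factorial : ℚ)) ∧
    ∀ (c : ℕ → ℚ) (M : ℕ), (∀ k, M < k → c k = 0) → (∀ g : ℕ, 1 ≤ g → f g = bexp c g) →
      (∀ k, 0 ≤ c k) ∧ (∀ k, m ≤ k → k ≤ n → 0 < c k) ∧ (∀ k, n < k → c k = 0) ∧ c n = x := by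
  obtain ⟨c₀, h1, h2, h3, h4, h5⟩ := h
  refine ⟨⟨poly c₀ n, fun g => ?_, ?_⟩, fun c M hM hc => ?_⟩
  · rw [poly_eval c₀ n g h3, h5]
  · have := poly_degree c₀ n (by rw [h4]; exact hx)
    rwa [h4] at this
  · have h6 : c = c₀ := bexp_unique c c₀ M n hM h3 fun g hg => by rw [← hc g hg, h5]
    subst h6
    exact ⟨h1, h2, h3, h4⟩

theorem top_ne {N : ℕ} (i : Fin N → ℕ) : top i ≠ 0 := by
  unfold top
  exact div_ne_zero (by exact_mod_cast Nat.factorial_ne_zero _)
    (Finset.prod_ne_zero_iff.2 fun l _ => by exact_mod_cast Nat.factorial_ne_zero _)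

theorem top_div {N : ℕ} (i : Fin N → ℕ) :
    top i / ((2 * ∑ j, i j).factorial : ℚ) = 1 / ∏ j, ((i j).factorial : ℚ) := by
  unfold top
  have h1 : ((2 * ∑ j, i j).factorial : ℚ) ≠ 0 := by exact_mod_cast Nat.factorial_ne_zero _
  have h2 : (∏ j, ((i j).factorial : ℚ)) ≠ 0 :=
    Finset.prod_ne_zero_iff.2 fun l _ => by exact_mod_cast Nat.factorial_ne_zero _
  field_simp

end Pool.Agent.H16.HH
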