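import Pool.Agent.H33.HH.TC

/-! Board hha_modules (MP_347b49_nt), row GRC: the local densities. -/

set_option autoImplicit false

open NumberField Complex Filter Topology MeasureTheory
open scoped ContDiff nonZeroDivisors

namespace Pool.Agent.H16.HH

open Pool.Agent.H33.HH Pool.Agent.H28.RC Pool.Agent.H37.CV

/-- the double sum over disjoint subsets -/
theorem two_sets {α : Type} [DecidableEq α] (u v : α → ℝ) (T : Finset α) :
    ∑ A ∈ T.powerset, ∑ B ∈ T.powerset,
      (if Disjoint A B then (∏ p ∈ A, u p) * ∏ p ∈ B, v p else 0) = ∏ p ∈ T, (1 + u p + v p) := by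
  induction T using Finset.induction_on with
  | empty => simp
  | insert a T ha ih =>
    have h1 : ∀ A ∈ T.powerset, ∑ B ∈ (insert a T).powerset,
        (if Disjoint A B then (∏ p ∈ A, u p) * ∏ p ∈ B, v p else 0) =
        (1 + v a) * ∑ B ∈ T.powerset,
          (if Disjoint A B then (∏ p ∈ A, u p) * ∏ p ∈ B, v p else 0) := by
      intro A hA
      have haA : a ∉ A := fun h => ha (Finset.mem_powerset.1 hA h)
      rw [Finset.sum_powerset_insert ha, add_mul, one_mul, Finset.mul_sum]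
      congr 1
      refine Finset.sum_congr rfl fun B hB => ?_
      have haB : a ∉ B := fun h => ha (Finset.mem_powerset.1 hB h)
      by_cases h : Disjoint A B
      · rw [if_pos h, if_pos (Finset.disjoint_insert_right.2 ⟨haA, h⟩), Finset.prod_insert haB]
        ring
      · rw [if_neg h, if_neg fun h' => h (Finset.disjoint_insert_right.1 h').2, mul_zero]
    have h2 : ∀ A ∈ T.powerset, ∑ B ∈ (insert a T).powerset,
        (if Disjoint (insert a A) B then (∏ p ∈ insert a A, u p) * ∏ p ∈ B, v p else 0) =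
        u a * ∑ B ∈ T.powerset,
          (if Disjoint A B then (∏ p ∈ A, u p) * ∏ p ∈ B, v p else 0) := by
      intro A hA
      have haA : a ∉ A := fun h => ha (Finset.mem_powerset.1 hA h)
      rw [Finset.sum_powerset_insert ha, Finset.mul_sum]
      have h3 : ∑ B ∈ T.powerset, (if Disjoint (insert a A) (insert a B) then
          (∏ p ∈ insert a A, u p) * ∏ p ∈ insert a B, v p else 0) = 0 := by
        refine Finset.sum_eq_zero fun B _ => if_neg ?_
        intro h
        exact Finset.disjoint_left.1 h (Finset.mem_insert_self a A) (Finset.mem_insert_self a B)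
      rw [h3, add_zero]
      refine Finset.sum_congr rfl fun B hB => ?_
      have haB : a ∉ B := fun h => ha (Finset.mem_powerset.1 hB h)
      by_cases h : Disjoint A B
      · rw [if_pos h, if_pos (Finset.disjoint_insert_left.2 ⟨haB, h⟩), Finset.prod_insert haA]
        ring
      · rw [if_neg h, if_neg fun h' => h (Finset.disjoint_insert_left.1 h').2, mul_zero]
    rw [Finset.sum_powerset_insert ha, Finset.sum_congr rfl h1, Finset.sum_congr rfl h2,
      ← Finset.mul_sum, ← Finset.mul_sum, ih, Finset.prod_insert ha]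
    ring

section NF

variable {K : Type} [Field K] [NumberField K]

theorem fin_np (M : ℝ) : {P : PrI K | np P ≤ M}.Finite := by
  have h1 := Ideal.finite_setOfPred_absNorm_le (S := 𝓞 K) ⌊M⌋₊
  refine Set.Finite.of_finite_image (f := fun P : PrI K => P.1) (h1.subset ?_)
    (Subtype.val_injective.injOn)
  rintro I ⟨P, hP, rfl⟩
  refine Nat.le_floor ?_
  exact hP

theorem mem_SP {M : ℝ} {P : PrI K} : P ∈ SP K M ↔ np P ≤ M := by
  unfold SP PM
  rw [dif_pos (fin_np M)]
  simp

theorem prI_max (p : PrI K) : p.1.IsMaximal := by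
  have := p.2.1
  exact Ideal.IsPrime.isMaximal p.2.1 p.2.2

/-- a product of primes contained in a prime -/
theorem idS_le (S : Finset (PrI K)) (p : PrI K) : idS S ≤ p.1 ↔ p ∈ S := by
  classical
  constructor
  · intro h
    obtain ⟨q, hq, hqp⟩ := (Ideal.IsPrime.prod_le p.2.1).1 h
    have h1 : q.1 = p.1 := (prI_max q).eq_of_le p.2.1.ne_top hqp
    have h2 : q = p := Subtype.ext h1
    rwa [h2] at hq
  · intro h
    unfold idS
    exact Ideal.prod_le_inf.trans (Finset.inf_le h)

theorem cop (u v : Ideal (𝓞 K)) (h : ∀ p : PrI K, u ≤ p.1 → v ≤ p.1 → False) (hu : u ≠ ⊥) :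
    u ⊔ v = ⊤ := by
  by_contra hne
  obtain ⟨m, hm, hle⟩ := Ideal.exists_le_maximal _ hne
  have hum : u ≤ m := le_sup_left.trans hle
  have hm0 : m ≠ ⊥ := fun h0 => hu (le_bot_iff.1 (h0 ▸ hum))
  exact h ⟨m, hm.isPrime, hm0⟩ hum (le_sup_right.trans hle)

theorem idS_ne (S : Finset (PrI K)) : idS S ≠ ⊥ := by
  unfold idS
  exact Finset.prod_ne_zero_iff.2 fun p _ => p.2.2

/-- the sum with a product of primes -/
theorem idS_sup [DecidableEq (PrI K)] (S : Finset (PrI K)) (l : Ideal (𝓞 K))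
    [DecidablePred fun p : PrI K => l ≤ p.1] :
    idS S ⊔ l = idS (S.filter fun p => l ≤ p.1) := by
  have h1 : idS S = idS (S.filter fun p => l ≤ p.1) * idS (S.filter fun p => ¬ l ≤ p.1) := by
    unfold idS
    exact (Finset.prod_filter_mul_prod_filter_not S _ _).symm
  have h2 : idS (S.filter fun p => ¬ l ≤ p.1) ⊔ l = ⊤ := by
    refine cop _ _ (fun p hp hl => ?_) (idS_ne _)
    rw [idS_le] at hp
    exact (Finset.mem_filter.1 hp).2 hl
  have h3 : l ≤ idS (S.filter fun p => l ≤ p.1) := by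
    rw [← Ideal.dvd_iff_le]
    unfold idS
    refine Finset.prod_dvd_of_coprime ?_ ?_
    · intro p _ q _ hpq
      rw [Function.onFun, Ideal.isCoprime_iff_sup_eq]
      refine cop _ _ (fun r h4 h5 => hpq ?_) p.2.2
      have h6 : p.1 = r.1 := (prI_max p).eq_of_le r.2.1.ne_top h4
      have h7 : q.1 = r.1 := (prI_max q).eq_of_le r.2.1.ne_top h5
      exact Subtype.ext (h6.trans h7.symm)
    · intro p hp
      rw [Ideal.dvd_iff_le]
      exact (Finset.mem_filter.1 hp).2
  rw [h1, sup_comm, mul_comm, Ideal.sup_mul_eq_of_coprime_left (by rw [sup_comm]; exact h2),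
    sup_eq_right.2 h3]

theorem nm_idS (S : Finset (PrI K)) : nm (idS S) = nS np S := by
  unfold nm idS nS np nm
  rw [map_prod]
  push_cast
  rfl

/-- the key step -/
theorem key (P : ℝ) (S A B : Finset (PrI K)) (b k l : Ideal (𝓞 K)) (hS : ∀ p ∈ S, P < np p)
    (hA : ∀ p ∈ A, np p ≤ P) (hB : ∀ p ∈ B, np p ≤ P) (hb : Cp P b) (hk : Sm' P k) :
    (idS A * idS S ⊔ idS B * (k * l) ∣ b → Disjoint A B ∧ ∀ p ∈ A, ¬ k * l ≤ p.1) ∧
    (Disjoint A B → (∀ p ∈ A, ¬ k * l ≤ p.1) →
      idS A * idS S ⊔ idS B * (k * l) = idS S ⊔ l) := by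
  constructor
  · intro h
    have hle : b ≤ idS A * idS S ⊔ idS B * (k * l) := Ideal.dvd_iff_le.1 h
    have h1 : ∀ p ∈ A, ¬ idS B * (k * l) ≤ p.1 := by
      intro p hp hBp
      have h2 : idS A * idS S ≤ p.1 := Ideal.mul_le_left.trans ((idS_le A p).2 hp)
      exact absurd (hb p (hle.trans (sup_le h2 hBp))) (not_lt.2 (hA p hp))
    refine ⟨Finset.disjoint_left.2 fun p hpA hpB => h1 p hpA ?_, fun p hp h2 => h1 p hp ?_⟩
    · exact Ideal.mul_le_left.trans ((idS_le B p).2 hpB)
    · exact Ideal.mul_le_right.trans h2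
  · intro hd hkl
    have h1 : idS A ⊔ idS B * (k * l) = ⊤ := by
      refine cop _ _ (fun p hp h2 => ?_) (idS_ne A)
      rw [idS_le] at hp
      rcases (Ideal.IsPrime.mul_le p.2.1).1 h2 with h3 | h3
      · rw [idS_le] at h3
        exact Finset.disjoint_left.1 hd hp h3
      · exact hkl p hp h3
    have h2 : idS S ⊔ idS B * k = ⊤ := by
      refine cop _ _ (fun p hp h3 => ?_) (idS_ne S)
      rw [idS_le] at hp
      rcases (Ideal.IsPrime.mul_le p.2.1).1 h3 with h4 | h4
      · rw [idS_le] at h4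
        exact absurd (hS p hp) (not_lt.2 (hB p h4))
      · exact absurd (hS p hp) (not_lt.2 (hk.2 p h4))
    rw [sup_comm, Ideal.sup_mul_eq_of_coprime_left (by rw [sup_comm]; exact h1), sup_comm,
      ← mul_assoc, Ideal.sup_mul_eq_of_coprime_left h2]

end NF

open scoped Classical in
theorem pf_GRC (h : T_IDF) : T_GRC := by
  intro K _ _ _ P y hy S hS b k l hb hbP hk hl
  obtain ⟨-, -, -, -, -, -, hSP, hIDF⟩ := h K P y hy S hS
  have hkey := fun A B : Finset (PrI K) => fun hA hB =>
    key P S A B b k l (fun p hp => (hSP p hp).1) hA hB hbP hk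
  have hmem : ∀ A ∈ (SP K P).powerset, ∀ p ∈ A, np p ≤ P := fun A hA p hp =>
    mem_SP.1 (Finset.mem_powerset.1 hA hp)
  refine ⟨?_, fun A hA B hB hdvd => ((hkey A B (hmem A hA) (hmem B hB)).1 hdvd).1⟩
  obtain ⟨G, hG⟩ : ∃ G : ℝ, G = ∏ p ∈ S, if l ≤ p.1 then (if b ≤ p.1 then np p else 0) else 1 :=
    ⟨_, rfl⟩
  have hGval : (if idS S ⊔ l ∣ b then nm (idS S ⊔ l) else 0) = G := by
    rw [hG]
    by_cases h1 : ∀ p ∈ S, l ≤ p.1 → b ≤ p.1
    · rw [if_pos ((hIDF b l hb hl hbP).2 h1), idS_sup, nm_idS]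
      unfold nS
      rw [Finset.prod_filter]
      refine Finset.prod_congr rfl fun p hp => ?_
      by_cases h2 : l ≤ p.1
      · rw [if_pos h2, if_pos h2, if_pos (h1 p hp h2)]
      · rw [if_neg h2, if_neg h2]
    · rw [if_neg fun h2 => h1 ((hIDF b l hb hl hbP).1 h2)]
      push Not at h1
      obtain ⟨p, hp, h2, h3⟩ := h1
      refine (Finset.prod_eq_zero hp ?_).symm
      rw [if_pos h2, if_neg h3]
  obtain ⟨u, hu⟩ : ∃ u : PrI K → ℝ, u = fun p => if k * l ≤ p.1 then 0 else - (1 / np p) :=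
    ⟨_, rfl⟩
  obtain ⟨v, hv⟩ : ∃ v : PrI K → ℝ, v = fun p => - (1 / np p) := ⟨_, rfl⟩
  have hvB : ∀ B : Finset (PrI K), ∏ p ∈ B, v p = (-1) ^ B.card / nS np B := by
    intro B
    rw [hv]
    unfold nS
    rw [Finset.prod_neg, Finset.prod_div_distrib, Finset.prod_const_one]
    ring
  have huA : ∀ A : Finset (PrI K), ∏ p ∈ A, u p =
      if ∀ p ∈ A, ¬ k * l ≤ p.1 then (-1) ^ A.card / nS np A else 0 := by
    intro A
    by_cases h1 : ∀ p ∈ A, ¬ k * l ≤ p.1
    · rw [if_pos h1, ← hvB]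
      refine Finset.prod_congr rfl fun p hp => ?_
      rw [hu, hv]
      exact if_neg (h1 p hp)
    · rw [if_neg h1]
      push Not at h1
      obtain ⟨p, hp, h2⟩ := h1
      refine Finset.prod_eq_zero hp ?_
      rw [hu]
      exact if_pos h2
  have hterm : ∀ A ∈ (SP K P).powerset, ∀ B ∈ (SP K P).powerset,
      (-1) ^ (A.card + B.card) * (if idS A * idS S ⊔ idS B * (k * l) ∣ b then
        nm (idS A * idS S ⊔ idS B * (k * l)) / (nS np A * nS np B) else 0) =
      G * (if Disjoint A B then (∏ p ∈ A, u p) * ∏ p ∈ B, v p else 0) := by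
    intro A hA B hB
    obtain ⟨k1, k2⟩ := hkey A B (hmem A hA) (hmem B hB)
    by_cases hd : Disjoint A B
    · rw [if_pos hd, huA, hvB]
      by_cases h1 : ∀ p ∈ A, ¬ k * l ≤ p.1
      · rw [if_pos h1, k2 hd h1, ← hGval]
        by_cases h2 : idS S ⊔ l ∣ b
        · rw [if_pos h2, if_pos h2, pow_add]
          ring
        · rw [if_neg h2, if_neg h2, mul_zero, zero_mul]
      · rw [if_neg h1, zero_mul, mul_zero, if_neg fun h2 => h1 (k1 h2).2, mul_zero]
    · rw [if_neg hd, mul_zero, if_neg fun h2 => hd (k1 h2).1, mul_zero]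
  rw [Finset.sum_congr rfl fun A hA => Finset.sum_congr rfl fun B hB => hterm A hA B hB]
  simp only [← Finset.mul_sum]
  rw [two_sets u v]
  unfold gs om
  rw [← hG]
  congr 1
  refine Finset.prod_congr rfl fun p _ => ?_
  rw [hu, hv]
  by_cases h1 : k * l ≤ p.1
  · simp only [if_pos h1]
    ring
  · simp only [if_neg h1]
    ring

end Pool.Agent.H16.HH
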