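import Pool.Agent.H33.HH.TC

/-! Board hha_modules (MP_347b49_nt), row IDL: ideals and elements of fractional ideals. -/

set_option autoImplicit false

open NumberField Complex Filter Topology MeasureTheory
open scoped ContDiff nonZeroDivisors

namespace Pool.Agent.H16.HH

open Pool.Agent.H33.HH Pool.Agent.H28.RC Pool.Agent.H37.CV

section idl

variable {K : Type} [Field K] [NumberField K]

/-- the inverse of the class of a nonzero ideal -/
noncomputable def kl (l : NI K) : ClassGroup (𝓞 K) :=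
  (ClassGroup.mk0 ⟨l.1, mem_nonZeroDivisors_of_ne_zero l.2⟩)⁻¹

theorem fin_NI (c : ℝ) : {l : NI K | nm l.1 < c}.Finite := by
  have h1 := Ideal.finite_setOfPred_absNorm_le (S := 𝓞 K) ⌊c⌋₊
  refine Set.Finite.of_finite_image (f := fun l : NI K => l.1) (h1.subset ?_)
    (Subtype.val_injective.injOn)
  rintro I ⟨l, hl, rfl⟩
  refine Nat.le_floor ?_
  exact le_of_lt hl

theorem exists_gen (b : (Ideal (𝓞 K))⁰) (l : NI K) (h : kl l = ClassGroup.mk0 b) :
    ∃ g : 𝓞 K, l.1 * b.1 = Ideal.span {g} := by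
  have h1 : ClassGroup.mk0 ((⟨l.1, mem_nonZeroDivisors_of_ne_zero l.2⟩ : (Ideal (𝓞 K))⁰) * b) =
      1 := by
    rw [map_mul, ← h]
    unfold kl
    exact mul_inv_cancel _
  obtain ⟨g, hg⟩ := (ClassGroup.mk0_eq_one_iff
    ((⟨l.1, mem_nonZeroDivisors_of_ne_zero l.2⟩ : (Ideal (𝓞 K))⁰) * b).2).1 h1
  exact ⟨g, hg⟩

end idl

theorem pf_IDL (h : T_NRM) : T_IDL := by
  intro K _ _ _
  obtain ⟨-, hwu, hfin, -, -, -, hMu⟩ := h K
  have hsurj : Function.Surjective (ClassGroup.mk0 : (Ideal (𝓞 K))⁰ → ClassGroup (𝓞 K)) :=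
    ClassGroup.mk0_surjective
  choose b hb using hsurj
  refine ⟨fun i => ((b i : Ideal (𝓞 K)) : FractionalIdeal (𝓞 K)⁰ K), fun i => ?_,
    fun f hf => ?_⟩
  · exact FractionalIdeal.coeIdeal_ne_zero.2 (nonZeroDivisors.ne_zero (b i).2)
  obtain ⟨c, hc⟩ := hf
  have hsum : Summable (fun l : NI K => f (nm l.1)) := by
    refine summable_of_hasFiniteSupport ((fin_NI (K := K) c).subset fun l hl => ?_)
    by_contra hlt
    exact hl (hc _ (not_lt.1 hlt))
  have h1 : ∀ i : ClassGroup (𝓞 K),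
      ∑' x : {x : K // x ∈ ((b i : Ideal (𝓞 K)) : FractionalIdeal (𝓞 K)⁰ K) ∧ x ≠ 0},
        f (‖em K x.1‖ ^ 2 / ((FractionalIdeal.absNorm
          ((b i : Ideal (𝓞 K)) : FractionalIdeal (𝓞 K)⁰ K) : ℚ) : ℝ)) =
      wu K * ∑' l : {l : NI K // kl l = i}, f (nm l.1.1) := by
    intro i
    have hbi : (b i : Ideal (𝓞 K)) ≠ ⊥ := nonZeroDivisors.ne_zero (b i).2
    have hgen : ∀ l : {l : NI K // kl l = i}, ∃ g : 𝓞 K, l.1.1 * (b i).1 = Ideal.span {g} :=
      fun l => exists_gen (b i) l.1 (by rw [l.2, hb])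
    choose g hg using hgen
    have hg0 : ∀ l, g l ≠ 0 := by
      intro l h0
      have h2 := hg l
      rw [h0, Ideal.span_singleton_eq_bot.2 rfl] at h2
      rcases Ideal.mul_eq_bot.1 h2 with h3 | h3
      · exact l.1.2 h3
      · exact hbi h3
    obtain ⟨Φ, hΦ⟩ : ∃ Φ : {l : NI K // kl l = i} × (𝓞 K)ˣ →
        {x : K // x ∈ ((b i : Ideal (𝓞 K)) : FractionalIdeal (𝓞 K)⁰ K) ∧ x ≠ 0},
        ∀ p, (Φ p).1 = algebraMap (𝓞 K) K (g p.1 * p.2) := by
      refine ⟨fun p => ⟨algebraMap (𝓞 K) K (g p.1 * p.2), ?_, ?_⟩, fun p => rfl⟩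
      · refine (FractionalIdeal.mem_coeIdeal _).2 ⟨g p.1 * p.2, ?_, rfl⟩
        refine Ideal.mul_mem_right _ _ ?_
        have h2 : g p.1 ∈ p.1.1.1 * (b i).1 := by
          rw [hg p.1]
          exact Ideal.mem_span_singleton_self _
        exact Ideal.mul_le_right h2
      · rw [Ne, map_eq_zero_iff _ (FaithfulSMul.algebraMap_injective (𝓞 K) K)]
        exact mul_ne_zero (hg0 _) p.2.ne_zero
    have hinj : Function.Injective Φ := by
      rintro ⟨l, u⟩ ⟨l', u'⟩ heq
      have h2 : g l * u = g l' * u' := by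
        refine FaithfulSMul.algebraMap_injective (𝓞 K) K ?_
        rw [← hΦ (l, u), ← hΦ (l', u'), heq]
      have h3 : Ideal.span {g l} = Ideal.span {g l'} := by
        rw [← Ideal.span_singleton_mul_right_unit u.isUnit (g l),
          ← Ideal.span_singleton_mul_right_unit u'.isUnit (g l'), h2]
      have h4 : l.1.1 * (b i).1 = l'.1.1 * (b i).1 := by rw [hg, hg, h3]
      have h5 : l.1.1 = l'.1.1 := mul_right_cancel₀ hbi h4
      have h6 : l = l' := Subtype.ext (Subtype.ext h5)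
      subst h6
      have h7 : (u : 𝓞 K) = u' := mul_left_cancel₀ (hg0 l) h2
      rw [Units.ext h7]
    have hsur : Function.Surjective Φ := by
      rintro ⟨x, hx, hx0⟩
      obtain ⟨y, hy, rfl⟩ := (FractionalIdeal.mem_coeIdeal _).1 hx
      have hy0 : y ≠ 0 := fun h0 => hx0 (by rw [h0, map_zero])
      have h2 : (b i).1 ∣ Ideal.span {y} := by
        rw [Ideal.dvd_iff_le]
        exact (Ideal.span_singleton_le_iff_mem _).2 hy
      obtain ⟨l, hl⟩ := h2
      have hl0 : l ≠ ⊥ := by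
        rintro rfl
        rw [Ideal.mul_bot, Ideal.span_singleton_eq_bot] at hl
        exact hy0 hl
      have hkl : kl ⟨l, hl0⟩ = i := by
        unfold kl
        have h3 : ClassGroup.mk0 ((⟨l, mem_nonZeroDivisors_of_ne_zero hl0⟩ : (Ideal (𝓞 K))⁰) *
            b i) = 1 := by
          refine (ClassGroup.mk0_eq_one_iff _).2 ⟨⟨y, ?_⟩⟩
          rw [mul_comm]
          exact hl.symm
        rw [map_mul, hb] at h3
        exact inv_eq_of_mul_eq_one_right h3
      have h3 : Ideal.span {g ⟨⟨l, hl0⟩, hkl⟩} = Ideal.span {y} := by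
        rw [← hg, hl, mul_comm]
      obtain ⟨u, hu⟩ := Ideal.span_singleton_eq_span_singleton.1 h3
      exact ⟨(⟨⟨l, hl0⟩, hkl⟩, u), Subtype.ext (by rw [hΦ]; exact congrArg _ hu)⟩
    have hval : ∀ p : {l : NI K // kl l = i} × (𝓞 K)ˣ,
        ‖em K (Φ p).1‖ ^ 2 / ((FractionalIdeal.absNorm
          ((b i : Ideal (𝓞 K)) : FractionalIdeal (𝓞 K)⁰ K) : ℚ) : ℝ) = nm p.1.1.1 := by
      intro p
      have h2 : Mu (Φ p).1 (⊤ : Ideal (𝓞 K)) (p.1.1.1 * (b i).1) := by
        unfold Mu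
        rw [hΦ, hg, ← Ideal.span_singleton_mul_right_unit p.2.isUnit (g p.1),
          FractionalIdeal.coeIdeal_span_singleton, FractionalIdeal.coeIdeal_top, mul_one]
      have h3 := hMu _ _ _ h2
      have h4 : nm (⊤ : Ideal (𝓞 K)) = 1 := by
        unfold nm
        rw [Ideal.absNorm_top, Nat.cast_one]
      have h5 : nm (p.1.1.1 * (b i).1) = nm p.1.1.1 * nm (b i).1 := by
        unfold nm
        rw [map_mul, Nat.cast_mul]
      have h6 : nm (b i).1 ≠ 0 := by
        unfold nm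
        rw [Nat.cast_ne_zero, Ne, Ideal.absNorm_eq_zero_iff]
        exact hbi
      have h7 : ((FractionalIdeal.absNorm
          ((b i : Ideal (𝓞 K)) : FractionalIdeal (𝓞 K)⁰ K) : ℚ) : ℝ) = nm (b i).1 := by
        rw [FractionalIdeal.coeIdeal_absNorm]
        unfold nm
        norm_num
      rw [h4, mul_one, h5] at h3
      rw [h7, h3, mul_div_assoc, div_self h6, mul_one]
    have hs1 : Summable (fun l : {l : NI K // kl l = i} => f (nm l.1.1)) :=
      hsum.comp_injective Subtype.val_injective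
    have hbij : Function.Bijective Φ := ⟨hinj, hsur⟩
    rw [← (Equiv.ofBijective Φ hbij).tsum_eq]
    have h2 : ∀ p : {l : NI K // kl l = i} × (𝓞 K)ˣ,
        f (‖em K ((Equiv.ofBijective Φ hbij) p).1‖ ^ 2 / ((FractionalIdeal.absNorm
          ((b i : Ideal (𝓞 K)) : FractionalIdeal (𝓞 K)⁰ K) : ℚ) : ℝ)) = f (nm p.1.1.1) := by
      intro p
      rw [← hval p]
      rfl
    rw [tsum_congr h2]
    have hfs : (Function.support fun l : {l : NI K // kl l = i} => f (nm l.1.1)).Finite := by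
      refine Set.Finite.of_finite_image (f := fun l : {l : NI K // kl l = i} => l.1)
        ((fin_NI (K := K) c).subset ?_) (Subtype.val_injective.injOn)
      rintro l ⟨l', hl', rfl⟩
      by_contra hlt
      exact hl' (hc _ (not_lt.1 hlt))
    have hps : Summable (fun p : {l : NI K // kl l = i} × (𝓞 K)ˣ => f (nm p.1.1.1)) := by
      refine summable_of_hasFiniteSupport (((hfs.prod (Set.finite_univ (α := (𝓞 K)ˣ)))).subset ?_)
      intro p hp
      exact ⟨hp, Set.mem_univ _⟩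
    rw [hps.tsum_prod, ← tsum_mul_left]
    refine tsum_congr fun l => ?_
    show ∑' _ : (𝓞 K)ˣ, f (nm l.1.1) = wu K * f (nm l.1.1)
    rw [tsum_const, nsmul_eq_mul]
    rfl
  rw [Finset.sum_congr rfl fun i _ => h1 i, ← Finset.mul_sum, ← mul_assoc,
    inv_mul_cancel₀ hwu.ne', one_mul, ← (Equiv.sigmaFiberEquiv (kl (K := K))).tsum_eq]
  have hs2 : Summable (fun p : Σ i, {l : NI K // kl l = i} =>
      f (nm ((Equiv.sigmaFiberEquiv (kl (K := K))) p).1)) :=
    hsum.comp_injective (Equiv.sigmaFiberEquiv (kl (K := K))).injective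
  rw [hs2.tsum_sigma, tsum_fintype]
  rfl

end Pool.Agent.H16.HH
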