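import Mathlib

/-!
# Binomial coefficients of elementary symmetric polynomials of arithmetic progressions
-/

set_option autoImplicit false

open Finset

namespace Pool.Agent.H16.HH

/-- the elementary symmetric polynomial `e_i` of `f 0, …, f (g - 1)` -/
def esum (f : ℕ → ℕ) (i g : ℕ) : ℕ := ∑ s ∈ (range g).powersetCard i, ∏ j ∈ s, f j

theorem esum_zero (f : ℕ → ℕ) (g : ℕ) : esum f 0 g = 1 := by
  simp [esum]

theorem esum_succ_zero (f : ℕ → ℕ) (i : ℕ) : esum f (i + 1) 0 = 0 := by
  simp [esum]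

theorem esum_succ_succ (f : ℕ → ℕ) (i g : ℕ) :
    esum f (i + 1) (g + 1) = esum f (i + 1) g + f g * esum f i g := by
  have hg : g ∉ range g := Finset.notMem_range_self
  unfold esum
  rw [Finset.range_add_one, Finset.powersetCard_succ_insert hg, Finset.sum_union]
  · congr 1
    rw [Finset.sum_image, Finset.mul_sum]
    · refine Finset.sum_congr rfl fun s hs => ?_
      rw [Finset.prod_insert]
      intro h
      exact hg ((Finset.mem_powersetCard.1 hs).1 h)
    · intro s hs t ht hst
      have h1 : g ∉ s := fun h => hg ((Finset.mem_powersetCard.1 hs).1 h)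
      have h2 : g ∉ t := fun h => hg ((Finset.mem_powersetCard.1 ht).1 h)
      rw [← Finset.erase_insert h1, ← Finset.erase_insert h2, hst]
  · rw [Finset.disjoint_left]
    intro s hs hs'
    obtain ⟨t, -, rfl⟩ := Finset.mem_image.1 hs'
    exact hg ((Finset.mem_powersetCard.1 hs).1 (Finset.mem_insert_self _ _))

/-- one step of the recursion of the coefficients, for the progression `α, α + 2, α + 4, …`:
the coefficients of `∑_(m < g) (2 m + α) ∑_k a_k C(m, k)` -/
def step (α : ℕ) (a : ℕ → ℕ) : ℕ → ℕ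
  | 0 => 0
  | 1 => α * a 0
  | (k + 2) => (2 * (k + 1) + α) * a (k + 1) + 2 * (k + 1) * a k

/-- the coefficients -/
def coef (α : ℕ) : ℕ → ℕ → ℕ
  | 0 => fun k => if k = 0 then 1 else 0
  | (i + 1) => step α (coef α i)

/-- the binomial expansion with the coefficients `a` -/
def bin (a : ℕ → ℕ) (g : ℕ) : ℕ := ∑ k ∈ range (g + 1), a k * g.choose k

theorem bin_zero (a : ℕ → ℕ) : bin a 0 = a 0 := by simp [bin]

theorem bin_ge (a : ℕ → ℕ) (g n : ℕ) (h : g ≤ n) :
    ∑ k ∈ range (n + 1), a k * g.choose k = bin a g := by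
  unfold bin
  rw [eq_comm]
  refine Finset.sum_subset (Finset.range_mono (by omega)) fun k hk hk' => ?_
  rw [Finset.mem_range] at hk hk'
  rw [Nat.choose_eq_zero_of_lt (by omega), mul_zero]

theorem bin_succ (b : ℕ → ℕ) (g : ℕ) :
    bin b (g + 1) = bin b g + ∑ k ∈ range (g + 1), b (k + 1) * g.choose k := by
  have h1 : bin b (g + 1) = b 0 + ∑ k ∈ range (g + 1), b (k + 1) * (g + 1).choose (k + 1) := by
    unfold bin
    rw [Finset.sum_range_succ']
    simp [add_comm]
  have h2 : bin b g = b 0 + ∑ k ∈ range (g + 1), b (k + 1) * g.choose (k + 1) := by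
    rw [← bin_ge b g (g + 1) (by omega), Finset.sum_range_succ']
    simp [add_comm]
  rw [h1, h2, add_assoc, ← Finset.sum_add_distrib]
  congr 1
  refine Finset.sum_congr rfl fun k _ => ?_
  rw [Nat.choose_succ_succ]
  ring

theorem step_sum (α : ℕ) (a : ℕ → ℕ) (g : ℕ) :
    ∑ k ∈ range (g + 1), step α a (k + 1) * g.choose k = (2 * g + α) * bin a g := by
  have key : ∀ k, (2 * g + α) * g.choose k =
      (2 * k + α) * g.choose k + 2 * (k + 1) * g.choose (k + 1) := by
    intro k
    rcases Nat.lt_or_ge g k with h | h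
    · rw [Nat.choose_eq_zero_of_lt h, Nat.choose_eq_zero_of_lt (by omega)]
      ring
    · have h1 := Nat.choose_succ_right_eq g k
      obtain ⟨m, rfl⟩ := Nat.exists_eq_add_of_le h
      rw [Nat.add_sub_cancel_left] at h1
      nlinarith [h1]
  have hs : ∀ k, step α a (k + 1) = (2 * k + α) * a k + 2 * k * a (k - 1) := by
    intro k
    cases k with
    | zero => simp [step]
    | succ k => simp [step]
  unfold bin
  rw [Finset.mul_sum]
  have h1 : ∀ k, (2 * g + α) * (a k * g.choose k) =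
      (2 * k + α) * a k * g.choose k + 2 * (k + 1) * a k * g.choose (k + 1) := by
    intro k
    calc (2 * g + α) * (a k * g.choose k) = a k * ((2 * g + α) * g.choose k) := by ring
      _ = _ := by rw [key k]; ring
  have h2 : ∑ k ∈ range (g + 1), 2 * k * a (k - 1) * g.choose k =
      ∑ k ∈ range (g + 1), 2 * (k + 1) * a k * g.choose (k + 1) := by
    rw [Finset.sum_range_succ']
    rw [Finset.sum_range_succ (fun k => 2 * (k + 1) * a k * g.choose (k + 1))]
    rw [Nat.choose_succ_self]
    simp only [mul_zero, zero_mul, add_zero, Nat.add_sub_cancel]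
  calc ∑ k ∈ range (g + 1), step α a (k + 1) * g.choose k
      = ∑ k ∈ range (g + 1), ((2 * k + α) * a k * g.choose k +
          2 * k * a (k - 1) * g.choose k) := by
        refine Finset.sum_congr rfl fun k _ => ?_
        rw [hs k]
        ring
    _ = ∑ k ∈ range (g + 1), ((2 * k + α) * a k * g.choose k +
          2 * (k + 1) * a k * g.choose (k + 1)) := by
        rw [Finset.sum_add_distrib, h2, ← Finset.sum_add_distrib]
    _ = ∑ k ∈ range (g + 1), (2 * g + α) * (a k * g.choose k) :=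
        Finset.sum_congr rfl fun k _ => (h1 k).symm

theorem bin_coef (α i g : ℕ) : bin (coef α i) g = esum (fun j => 2 * j + α) i g := by
  induction i generalizing g with
  | zero =>
    rw [esum_zero]
    unfold bin coef
    simp
  | succ i ih =>
    induction g with
    | zero =>
      rw [esum_succ_zero, bin_zero]
      rfl
    | succ g ihg =>
      rw [esum_succ_succ, bin_succ, ihg, ← ih g]
      congr 1
      exact step_sum α (coef α i) g

/-- log-concavity without internal zeros -/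
def SLC (a : ℕ → ℕ) : Prop := ∀ j k, j ≤ k → a j * a (k + 2) ≤ a (j + 1) * a (k + 1)

theorem arith (α r s A B C X Y Z : ℕ) (i1 : B * Z ≤ C * Y)
    (i2 : A * Z ≤ B * Y) (i3 : A * Y ≤ B * X) (i4 : B * Y ≤ C * X) :
    ((2 * r + α) * B + 2 * r * A) *
        ((2 * (r + 1 + s + 1) + α) * Z + 2 * (r + 1 + s + 1) * Y) ≤
      ((2 * (r + 1) + α) * C + 2 * (r + 1) * B) *
        ((2 * (r + 1 + s) + α) * Y + 2 * (r + 1 + s) * X) := by
  have j1 : (2 * r + α) * (2 * (r + 1 + s + 1) + α) * (B * Z) ≤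
      (2 * r + α) * (2 * (r + 1 + s + 1) + α) * (C * Y) := Nat.mul_le_mul_left _ i1
  have j2 : 2 * r * (2 * (r + 1 + s + 1) + α) * (A * Z) ≤
      2 * r * (2 * (r + 1 + s + 1) + α) * (B * Y) := Nat.mul_le_mul_left _ i2
  have j3 : 2 * r * (2 * (r + 1 + s + 1)) * (A * Y) ≤
      2 * r * (2 * (r + 1 + s + 1)) * (B * X) := Nat.mul_le_mul_left _ i3
  have j4 : (2 * (r + 1) + α) * (2 * (r + 1 + s)) * (B * Y) ≤
      (2 * (r + 1) + α) * (2 * (r + 1 + s)) * (C * X) := Nat.mul_le_mul_left _ i4
  generalize hCY : C * Y = CY at *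
  generalize hBY : B * Y = BY at *
  generalize hBX : B * X = BX at *
  generalize hCX : C * X = CX at *
  generalize hBZ : B * Z = BZ at *
  generalize hAZ : A * Z = AZ at *
  generalize hAY : A * Y = AY at *
  have hl : ((2 * r + α) * B + 2 * r * A) *
        ((2 * (r + 1 + s + 1) + α) * Z + 2 * (r + 1 + s + 1) * Y) =
      (2 * r + α) * (2 * (r + 1 + s + 1) + α) * BZ + (2 * r + α) * (2 * (r + 1 + s + 1)) * BY +
      2 * r * (2 * (r + 1 + s + 1) + α) * AZ + 2 * r * (2 * (r + 1 + s + 1)) * AY := by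
    rw [← hBZ, ← hBY, ← hAZ, ← hAY]
    ring
  have hr : ((2 * (r + 1) + α) * C + 2 * (r + 1) * B) *
        ((2 * (r + 1 + s) + α) * Y + 2 * (r + 1 + s) * X) =
      (2 * (r + 1) + α) * (2 * (r + 1 + s) + α) * CY + (2 * (r + 1) + α) * (2 * (r + 1 + s)) * CX +
      2 * (r + 1) * (2 * (r + 1 + s) + α) * BY + 2 * (r + 1) * (2 * (r + 1 + s)) * BX := by
    rw [← hCY, ← hCX, ← hBY, ← hBX]
    ring
  rw [hl, hr]
  have m1 : (2 * r + α) * (2 * (r + 1 + s + 1) + α) * CY ≤
      (2 * (r + 1) + α) * (2 * (r + 1 + s) + α) * CY := by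
    refine Nat.mul_le_mul_right _ (Nat.le.intro (k := 4 * (1 + s)) ?_)
    ring
  have m2 : (2 * r + α) * (2 * (r + 1 + s + 1)) * BY + 2 * r * (2 * (r + 1 + s + 1) + α) * BY ≤
      (2 * (r + 1) + α) * (2 * (r + 1 + s)) * BY + 2 * (r + 1) * (2 * (r + 1 + s) + α) * BY := by
    rw [← add_mul, ← add_mul]
    refine Nat.mul_le_mul_right _ (Nat.le.intro (k := 8 * (1 + s)) ?_)
    ring
  have m3 : 2 * r * (2 * (r + 1 + s + 1)) * BX ≤ 2 * (r + 1) * (2 * (r + 1 + s)) * BX := by
    refine Nat.mul_le_mul_right _ (Nat.le.intro (k := 4 * (1 + s)) ?_)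
    ring
  linarith

theorem slc_step (α : ℕ) (a : ℕ → ℕ) (ha : SLC a) : SLC (step α a) := by
  -- the shifted sequence
  obtain ⟨u, hu0, hu1, hu⟩ : ∃ u : ℕ → ℕ, u 0 = 0 ∧ u 1 = 0 ∧ ∀ n, u (n + 2) = a n :=
    ⟨fun n => if n < 2 then 0 else a (n - 2), by simp, by simp, fun n => by simp⟩
  have hS : ∀ j k, j ≤ k → u j * u (k + 2) ≤ u (j + 1) * u (k + 1) := by
    intro j k hjk
    match j, k, hjk with
    | 0, k, _ => rw [hu0, zero_mul]; exact Nat.zero_le _
    | 1, k, _ => rw [hu1, zero_mul]; exact Nat.zero_le _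
    | j + 2, k, h =>
      obtain ⟨k', rfl⟩ : ∃ k', k = k' + 2 := ⟨k - 2, by omega⟩
      have h1 := ha j k' (by omega)
      rw [hu j, hu (k' + 2), show j + 2 + 1 = j + 1 + 2 by ring, hu (j + 1),
        show k' + 2 + 1 = k' + 1 + 2 by ring, hu (k' + 1)]
      exact h1
  have hb : ∀ m, step α a (m + 1) = (2 * m + α) * u (m + 2) + 2 * m * u (m + 1) := by
    intro m
    cases m with
    | zero => simp [step, hu]
    | succ m => simp [step, hu]
  intro j k hjk
  cases j with
  | zero => simp [step]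
  | succ r =>
    obtain ⟨s, rfl⟩ : ∃ s, k = r + 1 + s := Nat.exists_eq_add_of_le hjk
    have e1 := hb r
    have e2 := hb (r + 1)
    have e3 := hb (r + 1 + s)
    have e4 := hb (r + 1 + s + 1)
    have i4 : u (r + 2) * u (r + 1 + s + 2) ≤ u (r + 3) * u (r + 1 + s + 1) := by
      rcases Nat.eq_zero_or_pos s with rfl | hs
      · rw [add_zero, mul_comm]
      · have := hS (r + 2) (r + 1 + s) (by omega)
        exact this
    have := arith α r s (u (r + 1)) (u (r + 2)) (u (r + 3)) (u (r + 1 + s + 1))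
      (u (r + 1 + s + 2)) (u (r + 1 + s + 3)) (hS (r + 2) (r + 1 + s + 1) (by omega))
      (hS (r + 1) (r + 1 + s + 1) (by omega)) (hS (r + 1) (r + 1 + s) (by omega)) i4
    calc step α a (r + 1) * step α a (r + 1 + s + 2)
        = ((2 * r + α) * u (r + 2) + 2 * r * u (r + 1)) *
          ((2 * (r + 1 + s + 1) + α) * u (r + 1 + s + 3) +
            2 * (r + 1 + s + 1) * u (r + 1 + s + 2)) := by
          rw [e1, show r + 1 + s + 2 = r + 1 + s + 1 + 1 from rfl, e4]
      _ ≤ _ := this
      _ = step α a (r + 1 + 1) * step α a (r + 1 + s + 1) := by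
          rw [e2, e3]

theorem slc_coef (α i : ℕ) : SLC (coef α i) := by
  induction i with
  | zero =>
    intro j k _
    simp [coef]
  | succ i ih => exact slc_step α _ ih

/-- the coefficients of the binomial expansion are unique -/
theorem coef_unique (α i : ℕ) (c : ℕ → ℤ)
    (hc : ∀ g : ℕ, (esum (fun j => 2 * j + α) i g : ℤ) =
      ∑ k ∈ range (g + 1), c k * (g.choose k : ℤ)) (k : ℕ) : c k = coef α i k := by
  induction k using Nat.strong_induction_on with
  | _ k ih =>
    have h1 := hc k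
    rw [← bin_coef α i k] at h1
    unfold bin at h1
    push_cast at h1
    rw [Finset.sum_range_succ, Finset.sum_range_succ _ k, Nat.choose_self] at h1
    have h2 : ∑ x ∈ range k, (coef α i x : ℤ) * (k.choose x : ℤ) =
        ∑ x ∈ range k, c x * (k.choose x : ℤ) :=
      Finset.sum_congr rfl fun x hx => by rw [ih x (Finset.mem_range.1 hx)]
    rw [h2] at h1
    simpa using (add_left_cancel h1).symm

theorem logConcave (α i : ℕ) (c : ℕ → ℤ)
    (hc : ∀ g : ℕ, (esum (fun j => 2 * j + α) i g : ℤ) =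
      ∑ k ∈ range (g + 1), c k * (g.choose k : ℤ)) :
    (∀ k, 0 ≤ c k) ∧ ∀ j k, j ≤ k → c j * c (k + 2) ≤ c (j + 1) * c (k + 1) := by
  refine ⟨fun k => ?_, fun j k hjk => ?_⟩
  · rw [coef_unique α i c hc k]
    exact Int.natCast_nonneg _
  · rw [coef_unique α i c hc j, coef_unique α i c hc (k + 2), coef_unique α i c hc (j + 1),
      coef_unique α i c hc (k + 1)]
    exact_mod_cast slc_coef α i j k hjk

end Pool.Agent.H16.HH
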