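import Mathlib

/-!
# Expansions in binomial coefficients with non-negative coefficients
-/

set_option autoImplicit false

open Finset

namespace Pool.Agent.H16.HH

/-- the binomial expansion with the coefficients `c` -/
def bexp (c : ℕ → ℚ) (g : ℕ) : ℚ := ∑ k ∈ range (g + 1), c k * (g.choose k : ℚ)

theorem bexp_ge (c : ℕ → ℚ) (g n : ℕ) (h : g ≤ n) :
    ∑ k ∈ range (n + 1), c k * (g.choose k : ℚ) = bexp c g := by
  unfold bexp
  rw [eq_comm]
  refine Finset.sum_subset (Finset.range_mono (by omega)) fun k hk hk' => ?_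
  rw [Finset.mem_range] at hk hk'
  rw [Nat.choose_eq_zero_of_lt (by omega), Nat.cast_zero, mul_zero]

theorem bexp_supp (c : ℕ → ℚ) (g n : ℕ) (h : ∀ k, n < k → c k = 0) :
    ∑ k ∈ range (n + 1), c k * (g.choose k : ℚ) = bexp c g := by
  rcases le_total g n with h1 | h1
  · exact bexp_ge c g n h1
  · unfold bexp
    refine Finset.sum_subset (Finset.range_mono (by omega)) fun k hk hk' => ?_
    rw [Finset.mem_range] at hk hk'
    rw [h k (by omega), zero_mul]

theorem bexp_add (c c' : ℕ → ℚ) (g : ℕ) :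
    bexp (fun k => c k + c' k) g = bexp c g + bexp c' g := by
  unfold bexp
  rw [← Finset.sum_add_distrib]
  exact Finset.sum_congr rfl fun k _ => by ring

theorem bexp_smul (x : ℚ) (c : ℕ → ℚ) (g : ℕ) :
    bexp (fun k => x * c k) g = x * bexp c g := by
  unfold bexp
  rw [Finset.mul_sum]
  exact Finset.sum_congr rfl fun k _ => by ring

/-- the coefficients shifted by one -/
def sh (c : ℕ → ℚ) : ℕ → ℚ
  | 0 => 0
  | (k + 1) => c k

theorem choose_rat (n k : ℕ) :
    ((n.choose (k + 1) : ℕ) : ℚ) * ((k : ℚ) + 1) = (n.choose k : ℚ) * ((n : ℚ) - k) := by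
  rcases le_or_gt k n with h | h
  · have h1 := Nat.choose_succ_right_eq n k
    have h2 : ((n.choose (k + 1) * (k + 1) : ℕ) : ℚ) = ((n.choose k * (n - k) : ℕ) : ℚ) := by
      rw [h1]
    rw [Nat.cast_mul, Nat.cast_mul, Nat.cast_sub h] at h2
    push_cast at h2
    exact h2
  · rw [Nat.choose_eq_zero_of_lt h, Nat.choose_eq_zero_of_lt (by omega)]
    simp

/-- multiplication by a linear polynomial -/
theorem bexp_mul (c : ℕ → ℚ) (x y : ℚ) (g : ℕ) :
    bexp (fun k => x * k * sh c k + (x * k + y) * c k) g = (x * g + y) * bexp c g := by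
  have h1 : ∀ k : ℕ, (x * g + y) * (g.choose k : ℚ) =
      (x * k + y) * (g.choose k : ℚ) + x * ((k : ℚ) + 1) * (g.choose (k + 1) : ℚ) := by
    intro k
    linear_combination x * (-(choose_rat g k))
  have h2 : bexp (fun k => x * k * sh c k) g =
      ∑ k ∈ range (g + 1), c k * (x * ((k : ℚ) + 1) * (g.choose (k + 1) : ℚ)) := by
    unfold bexp
    rw [Finset.sum_range_succ', Finset.sum_range_succ (fun k => c k * (x * ((k : ℚ) + 1) *
      (g.choose (k + 1) : ℚ))), Nat.choose_succ_self]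
    simp only [sh, Nat.cast_zero, mul_zero, zero_mul, add_zero]
    refine Finset.sum_congr rfl fun k _ => ?_
    push_cast
    ring
  rw [bexp_add, h2]
  unfold bexp
  rw [← Finset.sum_add_distrib, Finset.mul_sum]
  refine Finset.sum_congr rfl fun k _ => ?_
  linear_combination (-(c k)) * h1 k

/-- summation -/
theorem bexp_sum (c : ℕ → ℚ) (f F : ℕ → ℚ) (hF : ∀ g, F g = bexp c g)
    (hf : ∀ g, f (g + 1) = f g + F g) (g : ℕ) :
    f g = bexp (fun k => if k = 0 then f 0 else sh c k) g := by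
  induction g with
  | zero => simp [bexp]
  | succ g ih =>
    rw [hf, ih, hF]
    have h1 : bexp (fun k => if k = 0 then f 0 else sh c k) (g + 1) =
        f 0 + ∑ k ∈ range (g + 1), c k * ((g + 1).choose (k + 1) : ℚ) := by
      unfold bexp
      rw [Finset.sum_range_succ']
      simp [sh, add_comm]
    have h2 : bexp (fun k => if k = 0 then f 0 else sh c k) g =
        f 0 + ∑ k ∈ range (g + 1), c k * (g.choose (k + 1) : ℚ) := by
      rw [← bexp_ge _ g (g + 1) (by omega), Finset.sum_range_succ']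
      simp [sh, add_comm]
    rw [h1, h2, add_assoc]
    congr 1
    unfold bexp
    rw [← Finset.sum_add_distrib]
    refine Finset.sum_congr rfl fun k _ => ?_
    rw [Nat.choose_succ_succ]
    push_cast
    ring

/-- `f` has a binomial expansion with non-negative coefficients from `m` to `n` -/
def NN (m n : ℕ) (f : ℕ → ℚ) : Prop :=
  ∃ c : ℕ → ℚ, (∀ k, 0 ≤ c k) ∧ (∀ k, k < m → c k = 0) ∧ (∀ k, n < k → c k = 0) ∧
    ∀ g, f g = bexp c g

/-- `f` has a binomial expansion with non-negative coefficients up to `n`, which are positive from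
`m` to `n`; the last one is `x` -/
def Rep (m n : ℕ) (x : ℚ) (f : ℕ → ℚ) : Prop :=
  ∃ c : ℕ → ℚ, (∀ k, 0 ≤ c k) ∧ (∀ k, m ≤ k → k ≤ n → 0 < c k) ∧ (∀ k, n < k → c k = 0) ∧
    c n = x ∧ ∀ g, f g = bexp c g

theorem NN.zero (m n : ℕ) : NN m n fun _ => 0 :=
  ⟨fun _ => 0, fun _ => le_refl _, fun _ _ => rfl, fun _ _ => rfl, fun g => by simp [bexp]⟩

theorem NN.add {m n : ℕ} {f f' : ℕ → ℚ} (h : NN m n f) (h' : NN m n f') :
    NN m n fun g => f g + f' g := by
  obtain ⟨c, h1, h2, h3, h4⟩ := h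
  obtain ⟨c', h1', h2', h3', h4'⟩ := h'
  exact ⟨fun k => c k + c' k, fun k => add_nonneg (h1 k) (h1' k),
    fun k hk => by beta_reduce; rw [h2 k hk, h2' k hk, add_zero], fun k hk => by beta_reduce; rw [h3 k hk, h3' k hk, add_zero],
    fun g => by beta_reduce; rw [h4, h4', bexp_add]⟩

theorem NN.smul {m n : ℕ} {f : ℕ → ℚ} (h : NN m n f) {x : ℚ} (hx : 0 ≤ x) :
    NN m n fun g => x * f g := by
  obtain ⟨c, h1, h2, h3, h4⟩ := h
  exact ⟨fun k => x * c k, fun k => mul_nonneg hx (h1 k), fun k hk => by beta_reduce; rw [h2 k hk, mul_zero],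
    fun k hk => by beta_reduce; rw [h3 k hk, mul_zero], fun g => by beta_reduce; rw [h4, bexp_smul]⟩

theorem NN.mono {m n m' n' : ℕ} {f : ℕ → ℚ} (h : NN m n f) (hm : m' ≤ m) (hn : n ≤ n') :
    NN m' n' f := by
  obtain ⟨c, h1, h2, h3, h4⟩ := h
  exact ⟨c, h1, fun k hk => h2 k (by omega), fun k hk => h3 k (by omega), h4⟩

theorem NN.congr {m n : ℕ} {f f' : ℕ → ℚ} (h : NN m n f) (hf : ∀ g, f' g = f g) :
    NN m n f' := by
  obtain ⟨c, h1, h2, h3, h4⟩ := h
  exact ⟨c, h1, h2, h3, fun g => by rw [hf, h4]⟩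

theorem NN.sum {m n : ℕ} {ι : Type} (s : Finset ι) (f : ι → ℕ → ℚ) (h : ∀ a ∈ s, NN m n (f a)) :
    NN m n fun g => ∑ a ∈ s, f a g := by
  classical
  induction s using Finset.induction_on with
  | empty => simpa using NN.zero m n
  | insert a s ha ih =>
    have h1 := ih fun b hb => h b (Finset.mem_insert_of_mem hb)
    refine ((h a (Finset.mem_insert_self _ _)).add h1).congr fun g => ?_
    rw [Finset.sum_insert ha]

theorem NN.mul {m n : ℕ} {f : ℕ → ℚ} (h : NN m n f) {x y : ℚ} (hx : 0 ≤ x)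
    (hy : 0 ≤ x * m + y) : NN m (n + 1) fun g => (x * g + y) * f g := by
  obtain ⟨c, h1, h2, h3, h4⟩ := h
  refine ⟨fun k => x * k * sh c k + (x * k + y) * c k, fun k => ?_, fun k hk => ?_, fun k hk => ?_,
    fun g => by beta_reduce; rw [h4, bexp_mul]⟩
  · beta_reduce
    rcases lt_or_ge k m with hk | hk
    · rw [h2 k hk, mul_zero, add_zero]
      refine mul_nonneg (mul_nonneg hx (Nat.cast_nonneg k)) ?_
      cases k with
      | zero => exact le_refl _
      | succ k => exact h1 k
    · refine add_nonneg (mul_nonneg (mul_nonneg hx (Nat.cast_nonneg k)) ?_)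
        (mul_nonneg ?_ (h1 k))
      · cases k with
        | zero => exact le_refl _
        | succ k => exact h1 k
      · have h5 : (m : ℚ) ≤ k := by exact_mod_cast hk
        nlinarith [mul_le_mul_of_nonneg_left h5 hx]
  · cases k with
    | zero => simp [sh, h2 0 hk]
    | succ k => simp [sh, h2 k (by omega), h2 (k + 1) hk]
  · cases k with
    | zero => omega
    | succ k => simp [sh, h3 k (by omega), h3 (k + 1) (by omega)]

theorem Rep.nn {m n : ℕ} {x : ℚ} {f : ℕ → ℚ} (h : Rep m n x f) : NN 0 n f := by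
  obtain ⟨c, h1, -, h3, -, h4⟩ := h
  exact ⟨c, h1, fun k hk => absurd hk (by omega), h3, h4⟩

theorem Rep.congr {m n : ℕ} {x : ℚ} {f f' : ℕ → ℚ} (h : Rep m n x f) (hf : ∀ g, f' g = f g) :
    Rep m n x f' := by
  obtain ⟨c, h1, h2, h3, h4, h5⟩ := h
  exact ⟨c, h1, h2, h3, h4, fun g => by rw [hf, h5]⟩

theorem Rep.add {m n : ℕ} {x y : ℚ} {f f' : ℕ → ℚ} (h : Rep m n x f) (h' : Rep m n y f') :
    Rep m n (x + y) fun g => f g + f' g := by
  obtain ⟨c, h1, h2, h3, h4, h5⟩ := h
  obtain ⟨c', h1', h2', h3', h4', h5'⟩ := h'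
  exact ⟨fun k => c k + c' k, fun k => add_nonneg (h1 k) (h1' k),
    fun k hk hk' => add_pos (h2 k hk hk') (h2' k hk hk'),
    fun k hk => by beta_reduce; rw [h3 k hk, h3' k hk, add_zero], by beta_reduce; rw [h4, h4'],
    fun g => by beta_reduce; rw [h5, h5', bexp_add]⟩

theorem Rep.add_nn {m n n' : ℕ} {x : ℚ} {f f' : ℕ → ℚ} (h : Rep m n x f) (h' : NN 0 n' f')
    (hn : n' < n) : Rep m n x fun g => f g + f' g := by
  obtain ⟨c, h1, h2, h3, h4, h5⟩ := h
  obtain ⟨c', h1', -, h3', h5'⟩ := h'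
  exact ⟨fun k => c k + c' k, fun k => add_nonneg (h1 k) (h1' k),
    fun k hk hk' => add_pos_of_pos_of_nonneg (h2 k hk hk') (h1' k),
    fun k hk => by beta_reduce; rw [h3 k hk, h3' k (by omega), add_zero],
    by beta_reduce; rw [h4, h3' n hn, add_zero],
    fun g => by beta_reduce; rw [h5, h5', bexp_add]⟩

theorem Rep.sum {m n : ℕ} {ι : Type} (s : Finset ι) (hs : s.Nonempty) (f : ι → ℕ → ℚ)
    (x : ι → ℚ) (h : ∀ a ∈ s, Rep m n (x a) (f a)) :
    Rep m n (∑ a ∈ s, x a) fun g => ∑ a ∈ s, f a g := by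
  classical
  induction hs using Finset.Nonempty.cons_induction with
  | singleton a => simpa using h a (Finset.mem_singleton_self a)
  | cons a s ha hs ih =>
    have h1 := ih fun b hb => h b (Finset.mem_cons.2 (Or.inr hb))
    rw [Finset.sum_cons]
    refine ((h a (Finset.mem_cons_self _ _)).add h1).congr fun g => ?_
    rw [Finset.sum_cons]

theorem Rep.mul {m n : ℕ} {x : ℚ} {f : ℕ → ℚ} (h : Rep m n x f) (hmn : m ≤ n) {y : ℚ}
    (hy : 0 < y) : Rep m (n + 1) (2 * ((n : ℚ) + 1) * x) fun g => (2 * g + y) * f g := by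
  obtain ⟨c, h1, h2, h3, h4, h5⟩ := h
  have hs : ∀ k, 0 ≤ sh c k := fun k => by
    cases k with
    | zero => exact le_refl _
    | succ k => exact h1 k
  have hk2 : ∀ k : ℕ, (0 : ℚ) ≤ 2 * k := fun k => by positivity
  refine ⟨fun k => 2 * k * sh c k + (2 * k + y) * c k, fun k => ?_, fun k hk hk' => ?_,
    fun k hk => ?_, ?_, fun g => by beta_reduce; rw [h5, bexp_mul]⟩
  · exact add_nonneg (mul_nonneg (hk2 k) (hs k)) (mul_nonneg (by have := hk2 k; linarith) (h1 k))
  · beta_reduce
    rcases Nat.lt_or_ge n k with h6 | h6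
    · obtain rfl : k = n + 1 := by omega
      rw [h3 (n + 1) (by omega), mul_zero, add_zero]
      exact mul_pos (by positivity) (h2 n hmn (le_refl _))
    · exact add_pos_of_nonneg_of_pos (mul_nonneg (hk2 k) (hs k))
        (mul_pos (by have := hk2 k; linarith) (h2 k hk h6))
  · cases k with
    | zero => omega
    | succ k => simp [sh, h3 k (by omega), h3 (k + 1) (by omega)]
  · beta_reduce
    rw [h3 (n + 1) (by omega), mul_zero, add_zero]
    change 2 * ((n + 1 : ℕ) : ℚ) * c n = _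
    rw [h4]
    push_cast
    ring

theorem Rep.int {m n : ℕ} {x : ℚ} {F : ℕ → ℚ} (h : Rep m n x F) {f : ℕ → ℚ} (h0 : 0 ≤ f 0)
    (hf : ∀ g, f (g + 1) = f g + F g) : Rep (m + 1) (n + 1) x f := by
  obtain ⟨c, h1, h2, h3, h4, h5⟩ := h
  refine ⟨fun k => if k = 0 then f 0 else sh c k, fun k => ?_, fun k hk hk' => ?_, fun k hk => ?_,
    ?_, fun g => bexp_sum c f F h5 hf g⟩
  · cases k with
    | zero => simpa using h0
    | succ k => simpa [sh] using h1 k
  · cases k with
    | zero => omega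
    | succ k => simpa [sh] using h2 k (by omega) (by omega)
  · cases k with
    | zero => omega
    | succ k => simpa [sh] using h3 k (by omega)
  · simpa [sh] using h4

/-- multiplication by `C(g, t)` with a shift -/
theorem NN.shift {n : ℕ} {f : ℕ → ℚ} (h : NN 0 n f) (t : ℕ) :
    NN t (n + t) fun g => (g.choose t : ℚ) * f (g - t) := by
  obtain ⟨c, h1, -, h3, h4⟩ := h
  refine ⟨fun k => if k < t then 0 else (k.choose t : ℚ) * c (k - t), fun k => ?_, fun k hk => ?_,
    fun k hk => ?_, fun g => ?_⟩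
  · dsimp only
    split_ifs
    · exact le_refl _
    · exact mul_nonneg (Nat.cast_nonneg _) (h1 _)
  · exact if_pos hk
  · dsimp only
    rw [if_neg (by omega), h3 _ (by omega), mul_zero]
  · beta_reduce
    rcases Nat.lt_or_ge g t with hg | hg
    · rw [Nat.choose_eq_zero_of_lt hg, Nat.cast_zero, zero_mul]
      unfold bexp
      rw [eq_comm]
      refine Finset.sum_eq_zero fun k hk => ?_
      rw [Finset.mem_range] at hk
      beta_reduce
      rw [if_pos (by omega), zero_mul]
    · obtain ⟨s, rfl⟩ := Nat.exists_eq_add_of_le hg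
      rw [Nat.add_sub_cancel_left, h4]
      have hr : bexp (fun k => if k < t then 0 else (k.choose t : ℚ) * c (k - t)) (t + s) =
          ∑ k ∈ range (s + 1), ((t + k).choose t : ℚ) * c k * ((t + s).choose (t + k) : ℚ) := by
        unfold bexp
        rw [show t + s + 1 = t + (s + 1) by ring, Finset.sum_range_add,
          Finset.sum_eq_zero (s := range t), zero_add]
        · refine Finset.sum_congr rfl fun k hk => ?_
          beta_reduce
          rw [if_neg (by omega), Nat.add_sub_cancel_left]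
        · intro k hk
          rw [Finset.mem_range] at hk
          beta_reduce
          rw [if_pos hk, zero_mul]
      rw [hr]
      unfold bexp
      rw [Finset.mul_sum]
      refine Finset.sum_congr rfl fun k hk => ?_
      rw [Finset.mem_range] at hk
      have h5 : (t + s).choose (t + k) * (t + k).choose t = (t + s).choose t * s.choose k := by
        have h6 := Nat.choose_mul (n := t + s) (k := t + k) (s := t) (by omega)
        rw [Nat.add_sub_cancel_left, Nat.add_sub_cancel_left] at h6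
        exact h6
      have h6 : ((t + s).choose (t + k) : ℚ) * ((t + k).choose t : ℚ) =
          ((t + s).choose t : ℚ) * (s.choose k : ℚ) := by exact_mod_cast h5
      linear_combination (-(c k)) * h6

theorem NN.prod {m n : ℕ} {f : ℕ → ℚ} (h : NN m n f) (t : ℕ) (ht : t ≤ m + 1) :
    NN m (n + t) fun g => (∏ j ∈ range t, (2 * (g : ℚ) + (1 - 2 * j))) * f g := by
  induction t with
  | zero => exact h.congr fun g => by simp
  | succ t ih =>
    have h1 := ih (by omega)
    have h2 : (0 : ℚ) ≤ 2 * m + (1 - 2 * t) := by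
      have : (t : ℚ) ≤ m := by exact_mod_cast (by omega : t ≤ m)
      linarith
    refine (h1.mul (by norm_num) h2).congr fun g => ?_
    rw [Finset.prod_range_succ]
    ring

/-- `1 · 3 · ⋯ · (2 t + 1)` -/
def dfac : ℕ → ℚ
  | 0 => 1
  | (t + 1) => (2 * t + 3) * dfac t

theorem dfac_pos (t : ℕ) : 0 < dfac t := by
  induction t with
  | zero => exact one_pos
  | succ t ih => exact mul_pos (by positivity) ih

theorem choose_odd (g t : ℕ) : dfac t * ((2 * g + 1).choose (2 * t + 1) : ℚ) =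
    (∏ j ∈ range (t + 1), (2 * (g : ℚ) + (1 - 2 * j))) * (g.choose t : ℚ) := by
  induction t with
  | zero => simp [dfac]
  | succ t ih =>
    have h1 := choose_rat (2 * g + 1) (2 * t + 1)
    have h2 := choose_rat (2 * g + 1) (2 * t + 2)
    have h3 := choose_rat g t
    rw [Finset.prod_range_succ]
    rw [show 2 * (t + 1) + 1 = 2 * t + 2 + 1 by ring]
    push_cast at h1 h2 h3 ih ⊢
    unfold dfac
    rw [show 2 * t + 1 + 1 = 2 * t + 2 by ring] at h1
    have h4 : (2 * (t : ℚ) + 2) ≠ 0 := by positivity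
    apply mul_left_cancel₀ h4
    have h5 : ((2 * g + 1).choose (2 * t + 2 + 1) : ℚ) * (2 * (t : ℚ) + 3) =
        ((2 * g + 1).choose (2 * t + 2) : ℚ) * (2 * (g : ℚ) - 2 * t - 1) := by
      linear_combination h2
    have h6 : ((2 * g + 1).choose (2 * t + 2) : ℚ) * (2 * (t : ℚ) + 2) =
        ((2 * g + 1).choose (2 * t + 1) : ℚ) * (2 * (g : ℚ) - 2 * t) := by
      linear_combination h1
    calc (2 * (t : ℚ) + 2) * ((2 * t + 3) * dfac t * ((2 * g + 1).choose (2 * t + 2 + 1) : ℚ))
        = dfac t * (2 * (g : ℚ) - 2 * t - 1) * (((2 * g + 1).choose (2 * t + 2) : ℚ) *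
            (2 * (t : ℚ) + 2)) := by linear_combination (dfac t * (2 * (t : ℚ) + 2)) * h5
      _ = (dfac t * ((2 * g + 1).choose (2 * t + 1) : ℚ)) * ((2 * (g : ℚ) - 2 * t - 1) *
            (2 * (g : ℚ) - 2 * t)) := by rw [h6]; ring
      _ = _ := by
        rw [ih]
        linear_combination (-2 * (2 * (g : ℚ) - 2 * t - 1) *
          (∏ j ∈ range (t + 1), (2 * (g : ℚ) + (1 - 2 * j)))) * h3

theorem choose_even (g t : ℕ) : dfac t * ((2 * g + 2).choose (2 * t + 1) : ℚ) =
    2 * ((g : ℚ) + 1) * ((∏ j ∈ range t, (2 * (g : ℚ) + (1 - 2 * j))) * (g.choose t : ℚ)) := by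
  induction t with
  | zero => simp [dfac]; ring
  | succ t ih =>
    have h1 := choose_rat (2 * g + 2) (2 * t + 1)
    have h2 := choose_rat (2 * g + 2) (2 * t + 2)
    have h3 := choose_rat g t
    rw [Finset.prod_range_succ]
    rw [show 2 * (t + 1) + 1 = 2 * t + 2 + 1 by ring]
    push_cast at h1 h2 h3 ih ⊢
    unfold dfac
    rw [show 2 * t + 1 + 1 = 2 * t + 2 by ring] at h1
    have h4 : (2 * (t : ℚ) + 2) ≠ 0 := by positivity
    apply mul_left_cancel₀ h4
    have h5 : ((2 * g + 2).choose (2 * t + 2 + 1) : ℚ) * (2 * (t : ℚ) + 3) =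
        ((2 * g + 2).choose (2 * t + 2) : ℚ) * (2 * (g : ℚ) - 2 * t) := by
      linear_combination h2
    have h6 : ((2 * g + 2).choose (2 * t + 2) : ℚ) * (2 * (t : ℚ) + 2) =
        ((2 * g + 2).choose (2 * t + 1) : ℚ) * (2 * (g : ℚ) - 2 * t + 1) := by
      linear_combination h1
    calc (2 * (t : ℚ) + 2) * ((2 * t + 3) * dfac t * ((2 * g + 2).choose (2 * t + 2 + 1) : ℚ))
        = dfac t * (2 * (g : ℚ) - 2 * t) * (((2 * g + 2).choose (2 * t + 2) : ℚ) *
            (2 * (t : ℚ) + 2)) := by linear_combination (dfac t * (2 * (t : ℚ) + 2)) * h5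
      _ = (dfac t * ((2 * g + 2).choose (2 * t + 1) : ℚ)) * ((2 * (g : ℚ) - 2 * t) *
            (2 * (g : ℚ) - 2 * t + 1)) := by rw [h6]; ring
      _ = _ := by
        rw [ih]
        linear_combination (-4 * ((g : ℚ) + 1) * (2 * (g : ℚ) - 2 * t + 1) *
          (∏ j ∈ range t, (2 * (g : ℚ) + (1 - 2 * j)))) * h3

theorem NN.odd {n : ℕ} {f : ℕ → ℚ} (h : NN 0 n f) (t : ℕ) :
    NN 0 (n + 2 * t + 1) fun g => ((2 * g + 1).choose (2 * t + 1) : ℚ) * f (g - t) := by
  have h1 := ((h.shift t).prod (t + 1) (le_refl _)).smul (inv_nonneg.2 (dfac_pos t).le)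
  refine (h1.mono (Nat.zero_le _) (by omega)).congr fun g => ?_
  have h2 := choose_odd g t
  have h3 := (dfac_pos t).ne'
  field_simp
  linear_combination f (g - t) * h2

theorem NN.even {n : ℕ} {f : ℕ → ℚ} (h : NN 0 n f) (t : ℕ) :
    NN 0 (n + 2 * t + 1) fun g => ((2 * g + 2).choose (2 * t + 1) : ℚ) * f (g - t) := by
  have h1 := (((h.shift t).prod t (by omega)).mul (x := 2) (y := 2) (by norm_num)
    (by positivity)).smul (inv_nonneg.2 (dfac_pos t).le)
  refine (h1.mono (Nat.zero_le _) (by omega)).congr fun g => ?_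
  have h2 := choose_even g t
  have h3 := (dfac_pos t).ne'
  field_simp
  linear_combination f (g - t) * h2

end Pool.Agent.H16.HH
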